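import Pool.Agent.Lib.MP_6f2296_co.RL.Defs

/-!
# Definitions: few distances and small doubling (MP_6f2296)
-/

set_option autoImplicit false

open scoped ComplexConjugate
open Finset

namespace Pool.Agent.SD

/-- `z` is parallel to `θ` (or zero, or `θ` is zero). -/
def par (θ z : ℂ) : Prop := (conj θ * z).im = 0

/-- The integer points of the box with the sides `R * N i`. -/
noncomputable def wB {d : ℕ} (N : Fin d → ℝ) (R : ℝ) : Finset (Fin d → ℤ) :=
  Fintype.piFinset fun i => Finset.Icc (-⌊R * N i⌋) ⌊R * N i⌋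

theorem mem_wB {d : ℕ} {N : Fin d → ℝ} {R : ℝ} {x : Fin d → ℤ} :
    x ∈ wB N R ↔ ∀ i, |(x i : ℝ)| ≤ R * N i := by
  unfold wB
  rw [Fintype.mem_piFinset]
  refine forall_congr' fun i => ?_
  rw [Finset.mem_Icc, ← abs_le, Int.le_floor]
  push_cast
  rfl

/-- The integer vectors `x` with `L x` parallel to `θ`. -/
noncomputable def Mt {d : ℕ} (L : (Fin d → ℤ) →+ ℂ) (θ : ℂ) : Submodule ℤ (Fin d → ℤ) where
  carrier := {x | par θ (L x)}
  add_mem' := by
    intro x y hx hy
    change (conj θ * L x).im = 0 at hx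
    change (conj θ * L y).im = 0 at hy
    change (conj θ * L (x + y)).im = 0
    rw [map_add, mul_add, Complex.add_im, hx, hy, add_zero]
  zero_mem' := by
    change (conj θ * L 0).im = 0
    rw [map_zero, mul_zero, Complex.zero_im]
  smul_mem' := by
    intro n x hx
    change (conj θ * L x).im = 0 at hx
    change (conj θ * L (n • x)).im = 0
    rw [map_zsmul, mul_smul_comm, Complex.smul_im, hx, smul_zero]

theorem mem_Mt {d : ℕ} {L : (Fin d → ℤ) →+ ℂ} {θ : ℂ} {x : Fin d → ℤ} :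
    x ∈ Mt L θ ↔ par θ (L x) := Iff.rfl

/-- The kernel of `L` as a `ℤ`-submodule. -/
noncomputable def Kr {d : ℕ} (L : (Fin d → ℤ) →+ ℂ) : Submodule ℤ (Fin d → ℤ) := LinearMap.ker L.toIntLinearMap

theorem mem_Kr {d : ℕ} {L : (Fin d → ℤ) →+ ℂ} {x : Fin d → ℤ} : x ∈ Kr L ↔ L x = 0 := Iff.rfl

/-- A norm on an abelian group, all of whose balls are finite. -/
structure LNorm (Λ : Type) [AddCommGroup Λ] where
  /-- the norm -/
  val : Λ → ℝ
  pos : ∀ x, x ≠ 0 → 0 < val x
  smul : ∀ (k : ℤ) (x : Λ), val (k • x) = |(k : ℝ)| * val x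
  add : ∀ x y, val (x + y) ≤ val x + val y
  fin : ∀ R, {x | val x ≤ R}.Finite

instance (Λ : Type) [AddCommGroup Λ] : CoeFun (LNorm Λ) fun _ => Λ → ℝ := ⟨LNorm.val⟩

/-- The ball of radius `R`. -/
noncomputable def LNorm.ball {Λ : Type} [AddCommGroup Λ] (ν : LNorm Λ) (R : ℝ) : Finset Λ :=
  (ν.fin R).toFinset

theorem LNorm.mem_ball {Λ : Type} [AddCommGroup Λ] {ν : LNorm Λ} {R : ℝ} {x : Λ} :
    x ∈ ν.ball R ↔ ν x ≤ R := by
  unfold LNorm.ball
  rw [Set.Finite.mem_toFinset]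
  exact Iff.rfl

/-- The number of elements of the ball of radius `R`. -/
noncomputable def LNorm.cnt {Λ : Type} [AddCommGroup Λ] (ν : LNorm Λ) (R : ℝ) : ℕ := (ν.ball R).card

/-- The restriction of a norm to a subgroup. -/
noncomputable def LNorm.res {Λ : Type} [AddCommGroup Λ] (ν : LNorm Λ) (M : Submodule ℤ Λ) : LNorm M where
  val x := ν (x : Λ)
  pos _ hx := ν.pos _ fun h => hx (Subtype.ext h)
  smul k x := ν.smul k x
  add x y := ν.add x y
  fin R := Set.Finite.preimage (Subtype.val_injective.injOn) (ν.fin R)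

/-- The norm `max |x i| / N i`. -/
noncomputable def bN {d : ℕ} (N : Fin d → ℝ) (hN : ∀ i, 0 < N i) : LNorm (Fin d → ℤ) where
  val x := ‖fun i => (x i : ℝ) / N i‖
  pos x hx := by
    rw [norm_pos_iff]
    intro h
    refine hx (funext fun i => ?_)
    have h1 := congrFun h i
    simp only [Pi.zero_apply, div_eq_zero_iff, (hN i).ne', or_false, Int.cast_eq_zero] at h1
    exact h1
  smul k x := by
    have h1 : (fun i => (((k • x) i : ℤ) : ℝ) / N i) = (k : ℝ) • fun i => (x i : ℝ) / N i := by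
      funext i
      simp only [Pi.smul_apply, smul_eq_mul, Int.cast_mul]
      ring
    rw [h1, norm_smul, Real.norm_eq_abs]
  add x y := by
    have h1 : (fun i => (((x + y) i : ℤ) : ℝ) / N i) =
        (fun i => (x i : ℝ) / N i) + fun i => (y i : ℝ) / N i := by
      funext i
      simp only [Pi.add_apply, Int.cast_add]
      ring
    rw [h1]
    exact norm_add_le _ _
  fin R := by
    refine (wB N |R|).finite_toSet.subset fun x hx => ?_
    have hx' : ‖fun i => (x i : ℝ) / N i‖ ≤ R := hx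
    rw [Finset.mem_coe, mem_wB]
    intro i
    have h1 := (norm_le_pi_norm (fun i => (x i : ℝ) / N i) i).trans (hx'.trans (le_abs_self R))
    rw [Real.norm_eq_abs, abs_div, abs_of_pos (hN i), div_le_iff₀ (hN i)] at h1
    exact h1

theorem bN_le {d : ℕ} {N : Fin d → ℝ} {hN : ∀ i, 0 < N i} {R : ℝ} (hR : 0 ≤ R) {x : Fin d → ℤ} :
    bN N hN x ≤ R ↔ ∀ i, |(x i : ℝ)| ≤ R * N i := by
  change ‖fun i => (x i : ℝ) / N i‖ ≤ R ↔ _
  rw [pi_norm_le_iff_of_nonneg hR]
  refine forall_congr' fun i => ?_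
  rw [Real.norm_eq_abs, abs_div, abs_of_pos (hN i), div_le_iff₀ (hN i)]

theorem ball_bN {d : ℕ} {N : Fin d → ℝ} {hN : ∀ i, 0 < N i} {R : ℝ} (hR : 0 ≤ R) :
    (bN N hN).ball R = wB N R := by
  ext x
  rw [LNorm.mem_ball, mem_wB, bN_le hR]

end Pool.Agent.SD
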