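import Pool.Agent.Lib.MP_6f2296_co.SD.Red

/-!
# Further definitions: directions, volumes, counting functions
-/

set_option autoImplicit false

open scoped ComplexConjugate
open Finset

namespace Pool.Agent.SD

/-- A finite set of pairwise non-parallel nonzero complex numbers (directions). -/
def Dirs (Θ : Finset ℂ) : Prop := (∀ θ ∈ Θ, θ ≠ 0) ∧ ∀ θ ∈ Θ, ∀ θ' ∈ Θ, θ ≠ θ' → ¬ par θ θ'

/-- The volume of the box with the sides `t * N i` (sides shorter than `1` are replaced by `1`). -/
noncomputable def W {d : ℕ} (N : Fin d → ℝ) (t : ℝ) : ℝ := ∏ i, max 1 (t * N i)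

open Classical in
/-- The number of vectors of a submodule in the box with the sides `t * N i`. -/
noncomputable def cM {d : ℕ} (N : Fin d → ℝ) (M : Submodule ℤ (Fin d → ℤ)) (t : ℝ) : ℕ :=
  ((wB N t).filter (· ∈ M)).card

/-- The subgroup generated by the vectors `x` of the box with `L x` parallel to `θ`. -/
noncomputable def Gm {d : ℕ} (L : (Fin d → ℤ) →+ ℂ) (N : Fin d → ℝ) (θ : ℂ) : Submodule ℤ (Fin d → ℤ) :=
  Submodule.span ℤ {x | x ∈ wB N 1 ∧ x ∈ Mt L θ}

/-- The vectors whose coordinates with index at least `j` are zero. -/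
def Ej (d j : ℕ) : Submodule ℤ (Fin d → ℤ) where
  carrier := {x | ∀ l : Fin d, j ≤ (l : ℕ) → x l = 0}
  add_mem' := by
    intro x y hx hy l hl
    rw [Pi.add_apply, hx l hl, hy l hl, add_zero]
  zero_mem' := fun _ _ => rfl
  smul_mem' := by
    intro n x hx l hl
    rw [Pi.smul_apply, hx l hl, smul_zero]

theorem mem_Ej {d j : ℕ} {x : Fin d → ℤ} : x ∈ Ej d j ↔ ∀ l : Fin d, j ≤ (l : ℕ) → x l = 0 := Iff.rfl

open Classical in
/-- The number of ordered pairs of parallel nonzero elements. -/
noncomputable def Zpa (X : Finset ℂ) : ℕ :=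
  ((X ×ˢ X).filter fun p => p.1 ≠ 0 ∧ p.2 ≠ 0 ∧ par p.1 p.2).card

open Classical in
/-- The number of ordered pairs of perpendicular nonzero elements. -/
noncomputable def Zpe (X : Finset ℂ) : ℕ :=
  ((X ×ˢ X).filter fun p => p.1 ≠ 0 ∧ p.2 ≠ 0 ∧ (conj p.1 * p.2).re = 0).card

open Classical in
/-- The number of elements of `X` parallel to `θ` (the element `0` included). -/
noncomputable def nT (X : Finset ℂ) (θ : ℂ) : ℕ := (X.filter fun x => par θ x).card

end Pool.Agent.SD
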