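import Mathlib

/-!
# Norms on lattices and reduced bases

`IsLN f`: `f` is a homogeneous subadditive function with finite balls on an abelian group.
`qn f b` is the quotient norm on `M ⧸ ℤ b`.
`exists_reduced`: every norm on a lattice of rank `r` has a basis `b_i` with `|x_i| f(b_i) ≤ C_r f(x)`.
-/

set_option autoImplicit false

open Finset

namespace Pool.Agent.SD

/-- A norm on an abelian group (homogeneous, subadditive) with finite balls. -/
structure IsLN {M : Type} [AddCommGroup M] (f : M → ℝ) : Prop where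
  add_le : ∀ x y, f (x + y) ≤ f x + f y
  smul : ∀ (n : ℤ) x, f (n • x) = |(n : ℝ)| * f x
  fin : ∀ R : ℝ, {x | f x ≤ R}.Finite

section

variable {M : Type} [AddCommGroup M] {f : M → ℝ}

theorem IsLN.zero (h : IsLN f) : f 0 = 0 := by
  have := h.smul 0 0
  simpa using this

theorem IsLN.neg (h : IsLN f) (x : M) : f (-x) = f x := by
  have := h.smul (-1) x
  simpa using this

theorem IsLN.nonneg (h : IsLN f) (x : M) : 0 ≤ f x := by
  have h1 := h.add_le x (-x)
  rw [add_neg_cancel, h.zero, h.neg] at h1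
  linarith

theorem IsLN.sub_le (h : IsLN f) (x y : M) : f (x - y) ≤ f x + f y := by
  rw [sub_eq_add_neg]
  exact (h.add_le x (-y)).trans_eq (by rw [h.neg])

theorem IsLN.sum_le (h : IsLN f) {ι : Type*} (s : Finset ι) (g : ι → M) :
    f (∑ i ∈ s, g i) ≤ ∑ i ∈ s, f (g i) := by
  classical
  induction s using Finset.induction_on with
  | empty => simp [h.zero]
  | insert a s ha ih => rw [sum_insert ha, sum_insert ha]; exact (h.add_le _ _).trans (by linarith)

theorem IsLN.nsmul (h : IsLN f) (n : ℕ) (x : M) : f (n • x) = n * f x := by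
  have := h.smul n x
  simpa using this

theorem IsLN.pos (h : IsLN f) [Module.IsTorsionFree ℤ M] {x : M} (hx : x ≠ 0) : 0 < f x := by
  rcases (h.nonneg x).lt_or_eq with h1 | h1
  · exact h1
  · exfalso
    have hinj : Function.Injective fun n : ℤ => n • x := fun a b hab => smul_left_injective ℤ hx hab
    have hsub : Set.range (fun n : ℤ => n • x) ⊆ {y | f y ≤ 0} := by
      rintro _ ⟨n, rfl⟩
      change f (n • x) ≤ 0
      rw [h.smul, ← h1, mul_zero]
    exact Set.infinite_range_of_injective hinj ((h.fin 0).subset hsub)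

/-- A nonempty set of vectors has a shortest element. -/
theorem IsLN.exists_min (h : IsLN f) {S : Set M} (hS : S.Nonempty) : ∃ b ∈ S, ∀ x ∈ S, f b ≤ f x := by
  obtain ⟨x0, hx0⟩ := hS
  have hfin : (S ∩ {x | f x ≤ f x0}).Finite := (h.fin _).subset Set.inter_subset_right
  obtain ⟨b, hb, hmin⟩ := Set.exists_min_image _ f hfin ⟨x0, hx0, le_refl (f x0)⟩
  refine ⟨b, hb.1, fun x hx => ?_⟩
  by_cases h1 : f x ≤ f x0
  · exact hmin x ⟨hx, h1⟩
  · exact (hb.2 : f b ≤ f x0).trans (not_le.mp h1).le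

/-- The quotient norm. -/
noncomputable def qn (f : M → ℝ) (b : M) (x : M ⧸ (Submodule.span ℤ {b})) : ℝ :=
  sInf {t | ∃ (m : ℕ) (y : M), 1 ≤ m ∧ (Submodule.Quotient.mk y : M ⧸ (Submodule.span ℤ {b})) = m • x ∧ t = f y / m}

theorem qn_bdd (h : IsLN f) (b : M) (x : M ⧸ (Submodule.span ℤ {b})) :
    BddBelow {t | ∃ (m : ℕ) (y : M), 1 ≤ m ∧
      (Submodule.Quotient.mk y : M ⧸ (Submodule.span ℤ {b})) = m • x ∧ t = f y / m} := by
  refine ⟨0, ?_⟩
  rintro _ ⟨m, y, -, -, rfl⟩
  exact div_nonneg (h.nonneg y) (Nat.cast_nonneg m)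

theorem qn_nonempty (f : M → ℝ) (b : M) (x : M ⧸ (Submodule.span ℤ {b})) :
    {t | ∃ (m : ℕ) (y : M), 1 ≤ m ∧
      (Submodule.Quotient.mk y : M ⧸ (Submodule.span ℤ {b})) = m • x ∧ t = f y / m}.Nonempty := by
  obtain ⟨y, rfl⟩ := Submodule.Quotient.mk_surjective _ x
  exact ⟨f y / (1 : ℕ), 1, y, le_refl _, by simp, rfl⟩

theorem qn_le (h : IsLN f) {b : M} {x : M ⧸ (Submodule.span ℤ {b})} {m : ℕ} {y : M} (hm : 1 ≤ m)
    (hy : (Submodule.Quotient.mk y : M ⧸ (Submodule.span ℤ {b})) = m • x) : qn f b x ≤ f y / m :=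
  csInf_le (qn_bdd h b x) ⟨m, y, hm, hy, rfl⟩

theorem qn_mk_le (h : IsLN f) (b y : M) : qn f b (Submodule.Quotient.mk y) ≤ f y := by
  have := qn_le h (b := b) (x := Submodule.Quotient.mk y) (m := 1) (y := y) le_rfl (by simp)
  simpa using this

theorem le_qn (h : IsLN f) {b : M} {x : M ⧸ (Submodule.span ℤ {b})} {c : ℝ}
    (H : ∀ (m : ℕ) (y : M), 1 ≤ m → (Submodule.Quotient.mk y : M ⧸ (Submodule.span ℤ {b})) = m • x →
      c ≤ f y / m) : c ≤ qn f b x := by
  refine le_csInf (qn_nonempty f b x) ?_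
  rintro _ ⟨m, y, hm, hy, rfl⟩
  exact H m y hm hy

theorem exists_near (h : IsLN f) (b : M) (x : M ⧸ (Submodule.span ℤ {b})) {ε : ℝ} (hε : 0 < ε) :
    ∃ (m : ℕ) (y : M), 1 ≤ m ∧ (Submodule.Quotient.mk y : M ⧸ (Submodule.span ℤ {b})) = m • x ∧
      f y / m < qn f b x + ε := by
  by_contra hcon
  push Not at hcon
  have : qn f b x + ε ≤ qn f b x := le_qn h (fun m y hm hy => hcon m y hm hy)
  linarith

theorem qn_nonneg (h : IsLN f) (b : M) (x : M ⧸ (Submodule.span ℤ {b})) : 0 ≤ qn f b x :=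
  le_qn h fun m y _ _ => div_nonneg (h.nonneg y) (Nat.cast_nonneg m)

/-- Every class has a representative of almost minimal norm, up to half of the norm of `b`. -/
theorem exists_lift (h : IsLN f) (b : M) (x : M ⧸ (Submodule.span ℤ {b})) {ε : ℝ} (hε : 0 < ε) :
    ∃ y : M, Submodule.Quotient.mk y = x ∧ f y ≤ qn f b x + f b / 2 + ε := by
  obtain ⟨m, y, hm, hy, hlt⟩ := exists_near h b x hε
  obtain ⟨x0, rfl⟩ := Submodule.Quotient.mk_surjective _ x
  have h1 : y - m • x0 ∈ Submodule.span ℤ {b} := by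
    rw [← Submodule.Quotient.eq, hy, Submodule.Quotient.mk_smul]
  obtain ⟨n, hn⟩ := Submodule.mem_span_singleton.mp h1
  have hmpos : (0 : ℝ) < m := by exact_mod_cast hm
  set s : ℤ := round ((n : ℝ) / m) with hs
  have hround : |(n : ℝ) / m - s| ≤ 1 / 2 := abs_sub_round _
  refine ⟨x0 + s • b, ?_, ?_⟩
  · rw [Submodule.Quotient.eq]
    have : x0 + s • b - x0 = s • b := by abel
    rw [this]
    exact Submodule.smul_mem _ _ (Submodule.mem_span_singleton_self b)
  · have h2 : m • (x0 + s • b) = y + ((m : ℤ) * s - n) • b := by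
      rw [smul_add, sub_smul, hn, mul_smul, natCast_zsmul]
      abel
    have h3 : (m : ℝ) * f (x0 + s • b) ≤ f y + |(((m : ℤ) * s - n : ℤ) : ℝ)| * f b := by
      rw [← h.nsmul, h2]
      exact (h.add_le _ _).trans_eq (by rw [h.smul])
    have h4 : |(((m : ℤ) * s - n : ℤ) : ℝ)| ≤ m / 2 := by
      have : (((m : ℤ) * s - n : ℤ) : ℝ) = -(m * ((n : ℝ) / m - s)) := by
        push_cast; field_simp; ring
      rw [this, abs_neg, abs_mul, abs_of_pos hmpos]
      calc (m : ℝ) * |(n : ℝ) / m - s| ≤ m * (1 / 2) := by gcongr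
        _ = m / 2 := by ring
    have h5 : (m : ℝ) * f (x0 + s • b) ≤ f y + (m / 2) * f b :=
      h3.trans (by gcongr; exact h.nonneg b)
    have h6 : f y < m * (qn f b (Submodule.Quotient.mk x0) + ε) := by
      rwa [div_lt_iff₀ hmpos, mul_comm] at hlt
    have h7 : (m : ℝ) * f (x0 + s • b) ≤ m * (qn f b (Submodule.Quotient.mk x0) + f b / 2 + ε) := by
      nlinarith
    exact le_of_mul_le_mul_left h7 hmpos

theorem isLN_qn (h : IsLN f) (b : M) : IsLN (qn f b) where
  add_le x₁ x₂ := by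
    refine le_of_forall_pos_le_add fun ε hε => ?_
    obtain ⟨m₁, y₁, hm₁, hy₁, hl₁⟩ := exists_near h b x₁ (half_pos hε)
    obtain ⟨m₂, y₂, hm₂, hy₂, hl₂⟩ := exists_near h b x₂ (half_pos hε)
    have p₁ : (0 : ℝ) < m₁ := by exact_mod_cast hm₁
    have p₂ : (0 : ℝ) < m₂ := by exact_mod_cast hm₂
    have h1 : (Submodule.Quotient.mk (m₂ • y₁ + m₁ • y₂) : M ⧸ (Submodule.span ℤ {b})) =
        (m₁ * m₂) • (x₁ + x₂) := by
      rw [Submodule.Quotient.mk_add, Submodule.Quotient.mk_smul, Submodule.Quotient.mk_smul, hy₁, hy₂,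
        smul_add, smul_smul, smul_smul, mul_comm m₂ m₁]
    have h2 := qn_le h (Nat.one_le_iff_ne_zero.mpr (by positivity)) h1
    refine h2.trans ?_
    have h3 : f (m₂ • y₁ + m₁ • y₂) ≤ m₂ * f y₁ + m₁ * f y₂ :=
      (h.add_le _ _).trans_eq (by rw [h.nsmul, h.nsmul])
    have h4 : f (m₂ • y₁ + m₁ • y₂) / ((m₁ * m₂ : ℕ) : ℝ) ≤ f y₁ / m₁ + f y₂ / m₂ := by
      rw [div_le_iff₀ (by positivity)]
      refine h3.trans_eq ?_
      push_cast
      field_simp
    linarith
  smul n x := by
    rcases eq_or_ne n 0 with rfl | hn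
    · rw [zero_smul, Int.cast_zero, abs_zero, zero_mul]
      have h1 := qn_mk_le h b 0
      rw [Submodule.Quotient.mk_zero, h.zero] at h1
      exact le_antisymm h1 (qn_nonneg h b 0)
    · have hnpos : (0 : ℝ) < |(n : ℝ)| := abs_pos.mpr (by exact_mod_cast hn)
      apply le_antisymm
      · refine le_of_forall_pos_le_add fun ε hε => ?_
        obtain ⟨m, y, hm, hy, hl⟩ := exists_near h b x (div_pos hε hnpos)
        have pm : (0 : ℝ) < m := by exact_mod_cast hm
        have h1 : (Submodule.Quotient.mk (n • y) : M ⧸ (Submodule.span ℤ {b})) = m • (n • x) := by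
          rw [Submodule.Quotient.mk_smul, hy, smul_comm]
        have h2 := qn_le h hm h1
        rw [h.smul] at h2
        have h3 : |(n : ℝ)| * f y / m = |(n : ℝ)| * (f y / m) := by ring
        rw [h3] at h2
        have h4 : |(n : ℝ)| * (f y / m) ≤ |(n : ℝ)| * (qn f b x + ε / |(n : ℝ)|) := by gcongr
        have h5 : |(n : ℝ)| * (qn f b x + ε / |(n : ℝ)|) = |(n : ℝ)| * qn f b x + ε := by field_simp
        linarith
      · refine le_qn h fun m y hm hy => ?_
        have pm : (0 : ℝ) < m := by exact_mod_cast hm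
        have hna : 1 ≤ n.natAbs := Nat.one_le_iff_ne_zero.mpr (Int.natAbs_ne_zero.mpr hn)
        have h1 : ∃ y' : M, (Submodule.Quotient.mk y' : M ⧸ (Submodule.span ℤ {b})) = (m * n.natAbs) • x ∧
            f y' = f y := by
          rcases Int.natAbs_eq n with h0 | h0
          · refine ⟨y, ?_, rfl⟩
            rw [hy, h0, Int.natAbs_natCast, natCast_zsmul, smul_smul]
          · refine ⟨-y, ?_, h.neg y⟩
            rw [Submodule.Quotient.mk_neg, hy]
            conv_lhs => rw [h0]
            rw [neg_smul, natCast_zsmul, smul_neg, neg_neg, smul_smul]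
        obtain ⟨y', hy', hfy⟩ := h1
        have h2 := qn_le h (Nat.mul_pos hm hna) hy'
        rw [hfy] at h2
        have h3 : (((m * n.natAbs : ℕ) : ℝ)) = m * |(n : ℝ)| := by
          rw [Nat.cast_mul, Nat.cast_natAbs, Int.cast_abs]
        rw [h3] at h2
        calc |(n : ℝ)| * qn f b x ≤ |(n : ℝ)| * (f y / (m * |(n : ℝ)|)) := by gcongr
          _ = f y / m := by field_simp
  fin R := by
    have hfin := (h.fin (R + f b / 2 + 1)).image
      (fun y => (Submodule.Quotient.mk y : M ⧸ (Submodule.span ℤ {b})))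
    refine hfin.subset ?_
    intro x hx
    obtain ⟨y, hy, hle⟩ := exists_lift h b x one_pos
    refine ⟨y, ?_, hy⟩
    have hx' : qn f b x ≤ R := hx
    change f y ≤ R + f b / 2 + 1
    linarith

/-- The quotient by a vector which is shortest in a pure subgroup is torsion free. -/
theorem torsionFree_quot (h : IsLN f) [Module.IsTorsionFree ℤ M] {b : M} (hb : b ≠ 0) {S : Set M}
    (hbS : b ∈ S) (hmin : ∀ x ∈ S, x ≠ 0 → f b ≤ f x)
    (hadd : ∀ x ∈ S, ∀ y ∈ S, x - y ∈ S) (hsmul : ∀ (n : ℤ), ∀ x ∈ S, n • x ∈ S)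
    (hpure : ∀ (n : ℤ) (x : M), n ≠ 0 → n • x ∈ S → x ∈ S) :
    Module.IsTorsionFree ℤ (M ⧸ (Submodule.span ℤ {b})) := by
  refine Module.IsTorsionFree.of_smul_eq_zero fun n x hnx => ?_
  by_contra hcon
  push Not at hcon
  obtain ⟨hn, hx⟩ := hcon
  obtain ⟨y, rfl⟩ := Submodule.Quotient.mk_surjective _ x
  rw [← Submodule.Quotient.mk_smul, Submodule.Quotient.mk_eq_zero] at hnx
  obtain ⟨k, hk⟩ := Submodule.mem_span_singleton.mp hnx
  have hyS : y ∈ S := hpure n y hn (hk ▸ hsmul k b hbS)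
  set s : ℤ := round ((k : ℝ) / n) with hs
  have hround : |(k : ℝ) / n - s| ≤ 1 / 2 := abs_sub_round _
  have hn' : (n : ℝ) ≠ 0 := by exact_mod_cast hn
  have hnpos : (0 : ℝ) < |(n : ℝ)| := abs_pos.mpr hn'
  have h1 : n • (y - s • b) = (k - s * n) • b := by
    rw [smul_sub, ← hk, smul_smul, sub_smul, mul_comm n s]
  have h2 : |(n : ℝ)| * f (y - s • b) = |((k - s * n : ℤ) : ℝ)| * f b := by
    rw [← h.smul, h1, h.smul]
  have h3 : |((k - s * n : ℤ) : ℝ)| ≤ |(n : ℝ)| * (1 / 2) := by
    have : ((k - s * n : ℤ) : ℝ) = n * ((k : ℝ) / n - s) := by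
      push_cast; field_simp
    rw [this, abs_mul]
    gcongr
  have hfb : 0 < f b := h.pos hb
  have h4 : f (y - s • b) ≤ f b / 2 := by
    have : |(n : ℝ)| * f (y - s • b) ≤ |(n : ℝ)| * (f b / 2) := by
      rw [h2]
      calc |((k - s * n : ℤ) : ℝ)| * f b ≤ |(n : ℝ)| * (1 / 2) * f b := by gcongr
        _ = |(n : ℝ)| * (f b / 2) := by ring
    exact le_of_mul_le_mul_left this hnpos
  have h5 : y - s • b = 0 := by
    by_contra h6
    have := hmin _ (hadd y hyS _ (hsmul s b hbS)) h6
    linarith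
  refine hx ((Submodule.Quotient.mk_eq_zero _).mpr ?_)
  rw [sub_eq_zero] at h5
  rw [h5]
  exact Submodule.smul_mem _ _ (Submodule.mem_span_singleton_self b)

end

theorem finrank_quot {M : Type} [AddCommGroup M] [Module.Finite ℤ M] [Module.IsTorsionFree ℤ M] {b : M}
    (hb : b ≠ 0) {r : ℕ} (hr : Module.finrank ℤ M = r + 1) :
    Module.finrank ℤ (M ⧸ (Submodule.span ℤ {b})) = r := by
  have h1 := Submodule.finrank_quotient_add_finrank (R := ℤ) (Submodule.span ℤ {b})
  have h2 : Module.finrank ℤ (Submodule.span ℤ {b}) = 1 := by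
    have e : ℤ ≃ₗ[ℤ] Submodule.span ℤ {b} := LinearEquiv.toSpanNonzeroSingleton ℤ M b hb
    rw [← e.finrank_eq, Module.finrank_self]
  omega

/-- **Reduced bases.** -/
theorem exists_reduced (r : ℕ) : ∃ C : ℝ, 1 ≤ C ∧ ∀ (M : Type) [AddCommGroup M] [Module.Finite ℤ M]
    [Module.IsTorsionFree ℤ M], Module.finrank ℤ M = r → ∀ f : M → ℝ, IsLN f →
    ∃ e : M ≃ₗ[ℤ] (Fin r → ℤ), ∀ x i, |(e x i : ℝ)| * f (e.symm (Pi.single i 1)) ≤ C * f x := by
  induction r with
  | zero =>
    refine ⟨1, le_refl _, ?_⟩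
    intro M _ _ _ hr f _
    have e : M ≃ₗ[ℤ] (Fin 0 → ℤ) := LinearEquiv.ofFinrankEq _ _ (by rw [hr]; simp)
    exact ⟨e, fun x i => i.elim0⟩
  | succ r ih =>
    obtain ⟨C, hC, ih⟩ := ih
    refine ⟨1 + (r + 1) * (4 * C), by nlinarith [Nat.cast_nonneg (α := ℝ) r], ?_⟩
    intro M _ _ _ hr f h
    have hnt : Nontrivial M := by
      rw [← Module.finrank_pos_iff (R := ℤ)] 
      omega
    obtain ⟨x0, hx0⟩ := exists_ne (0 : M)
    obtain ⟨b, hb, hmin⟩ := h.exists_min (S := {x | x ≠ 0}) ⟨x0, hx0⟩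
    have hb : b ≠ 0 := hb
    have htf : Module.IsTorsionFree ℤ (M ⧸ (Submodule.span ℤ {b})) :=
      torsionFree_quot h hb (S := Set.univ) (Set.mem_univ _) (fun x _ hx => hmin x hx)
        (fun _ _ _ _ => Set.mem_univ _) (fun _ _ _ => Set.mem_univ _) (fun _ _ _ _ => Set.mem_univ _)
    obtain ⟨e', he'⟩ := ih (M ⧸ (Submodule.span ℤ {b})) (finrank_quot hb hr) (qn f b) (isLN_qn h b)
    have hfb : 0 < f b := h.pos hb
    have hlift : ∀ i : Fin r, ∃ y : M, Submodule.Quotient.mk y = e'.symm (Pi.single i 1) ∧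
        f y ≤ qn f b (e'.symm (Pi.single i 1)) + f b / 2 + f b / 4 :=
      fun i => exists_lift h b _ (by positivity)
    choose c hc1 hc2 using hlift
    have hcne : ∀ i, c i ≠ 0 := by
      intro i h0
      have h1 := hc1 i
      rw [h0, Submodule.Quotient.mk_zero] at h1
      have h2 : (Pi.single i 1 : Fin r → ℤ) = 0 := by
        rw [← e'.symm.map_eq_zero_iff, ← h1]
      have h3 := congrFun h2 i
      simp at h3
    have hc3 : ∀ i, f (c i) ≤ 4 * qn f b (e'.symm (Pi.single i 1)) := by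
      intro i
      have h1 := hmin (c i) (hcne i)
      have h2 := hc2 i
      linarith
    let F : (Fin (r + 1) → ℤ) →ₗ[ℤ] M :=
      { toFun := fun y => y 0 • b + ∑ i : Fin r, y i.succ • c i
        map_add' := by
          intro y z
          simp only [Pi.add_apply, add_smul, sum_add_distrib]
          abel
        map_smul' := by
          intro n y
          simp only [Pi.smul_apply, smul_eq_mul, mul_smul, smul_add, smul_sum, RingHom.id_apply] }
    have hF : ∀ y, F y = y 0 • b + ∑ i : Fin r, y i.succ • c i := fun y => rfl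
    have hmkF : ∀ y, (Submodule.Quotient.mk (F y) : M ⧸ (Submodule.span ℤ {b})) =
        e'.symm (fun i => y i.succ) := by
      intro y
      have h1 : (fun i : Fin r => y i.succ) = ∑ i : Fin r, y i.succ • (Pi.single i 1 : Fin r → ℤ) := by
        ext j
        simp [Finset.sum_apply, Pi.single_apply]
      rw [h1, map_sum, hF, ← Submodule.mkQ_apply, map_add, map_sum]
      have h2 : (Submodule.span ℤ {b}).mkQ (y 0 • b) = 0 := by
        rw [Submodule.mkQ_apply, Submodule.Quotient.mk_eq_zero]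
        exact Submodule.smul_mem _ _ (Submodule.mem_span_singleton_self b)
      rw [h2, zero_add]
      refine sum_congr rfl fun i _ => ?_
      rw [map_smul, map_smul, Submodule.mkQ_apply, hc1]
    have hinj : Function.Injective F := by
      rw [← LinearMap.ker_eq_bot, LinearMap.ker_eq_bot']
      intro y hy
      have h1 : (fun i : Fin r => y i.succ) = 0 := by
        rw [← e'.symm.map_eq_zero_iff, ← hmkF, hy, Submodule.Quotient.mk_zero]
      have h2 : ∀ i : Fin r, y i.succ = 0 := fun i => congrFun h1 i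
      have h3 : y 0 • b = 0 := by
        rw [hF] at hy
        simpa [h2] using hy
      have h4 : y 0 = 0 := (smul_eq_zero.mp h3).resolve_right hb
      ext j
      refine Fin.cases h4 (fun i => h2 i) j
    have hsurj : Function.Surjective F := by
      intro x
      set y' := e' (Submodule.Quotient.mk x) with hy'
      have h1 : (Submodule.Quotient.mk (F (Fin.cons 0 y')) : M ⧸ (Submodule.span ℤ {b})) =
          Submodule.Quotient.mk x := by
        rw [hmkF]
        have : (fun i : Fin r => (Fin.cons 0 y' : Fin (r + 1) → ℤ) i.succ) = y' := by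
          ext i; simp
        rw [this, hy', LinearEquiv.symm_apply_apply]
      rw [Submodule.Quotient.eq] at h1
      obtain ⟨k, hk⟩ := Submodule.mem_span_singleton.mp h1
      refine ⟨Fin.cons (-k) y', ?_⟩
      rw [hF] at hk ⊢
      simp only [Fin.cons_zero, Fin.cons_succ, zero_smul, zero_add] at hk ⊢
      rw [neg_smul, hk]
      abel
    refine ⟨(LinearEquiv.ofBijective F ⟨hinj, hsurj⟩).symm, ?_⟩
    intro x j
    set y := (LinearEquiv.ofBijective F ⟨hinj, hsurj⟩).symm x with hy
    have hFy : F y = x := by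
      rw [hy]
      exact LinearEquiv.apply_symm_apply (LinearEquiv.ofBijective F ⟨hinj, hsurj⟩) x
    have hfx : 0 ≤ f x := h.nonneg x
    have hco : ∀ i : Fin r, |(y i.succ : ℝ)| * f (c i) ≤ 4 * C * f x := by
      intro i
      have h1 : e' (Submodule.Quotient.mk x) = fun i : Fin r => y i.succ := by
        rw [← hFy, hmkF, LinearEquiv.apply_symm_apply]
      have h2 := he' (Submodule.Quotient.mk x) i
      rw [h1] at h2
      have h3 := qn_mk_le h b x
      have h4 := hc3 i
      calc |(y i.succ : ℝ)| * f (c i)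
          ≤ |(y i.succ : ℝ)| * (4 * qn f b (e'.symm (Pi.single i 1))) := by gcongr
        _ = 4 * (|(y i.succ : ℝ)| * qn f b (e'.symm (Pi.single i 1))) := by ring
        _ ≤ 4 * (C * qn f b (Submodule.Quotient.mk x)) := by gcongr
        _ ≤ 4 * (C * f x) := by gcongr
        _ = 4 * C * f x := by ring
    have hsymm : ∀ z, (LinearEquiv.ofBijective F ⟨hinj, hsurj⟩).symm.symm z = F z := fun z => rfl
    rw [hsymm]
    refine Fin.cases ?_ (fun i => ?_) j
    · have h1 : F (Pi.single 0 1) = b := by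
        rw [hF]; simp
      rw [h1]
      have h2 : y 0 • b = x - ∑ i : Fin r, y i.succ • c i := by
        rw [← hFy, hF]; abel
      have h3 : |(y 0 : ℝ)| * f b = f (x - ∑ i : Fin r, y i.succ • c i) := by
        rw [← h2, h.smul]
      rw [h3]
      calc f (x - ∑ i : Fin r, y i.succ • c i) ≤ f x + f (∑ i : Fin r, y i.succ • c i) := h.sub_le _ _
        _ ≤ f x + ∑ i : Fin r, f (y i.succ • c i) := by gcongr; exact h.sum_le _ _
        _ ≤ f x + ∑ _i : Fin r, 4 * C * f x := by
            gcongr with i _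
            rw [h.smul]
            exact hco i
        _ = f x + r * (4 * C * f x) := by simp
        _ ≤ (1 + (r + 1) * (4 * C)) * f x := by
            have : 0 ≤ 4 * C * f x := by positivity
            nlinarith
    · have h1 : F (Pi.single i.succ 1) = c i := by
        rw [hF]
        simp [Pi.single_apply]
      rw [h1]
      have hr0 : (0 : ℝ) ≤ r := Nat.cast_nonneg r
      calc |(y i.succ : ℝ)| * f (c i) ≤ 4 * C * f x := hco i
        _ ≤ (1 + (r + 1) * (4 * C)) * f x := by
            have : 0 ≤ 4 * C * f x := by positivity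
            nlinarith [mul_nonneg hr0 this]

end Pool.Agent.SD
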