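import Pool.Agent.Lib.MP_6f2296_co.RL.Defs

/-!
# Definitions: rich points; sets with the structure of a lattice of a number field
-/

set_option autoImplicit false

open Finset

namespace Pool.Agent.SD

open Classical in
/-- The points of `A` whose line with the direction `w` contains at least `T` points of `A`. -/
noncomputable def richPts (A : Finset ℂ) (w : ℂ) (T : ℝ) : Finset ℂ :=
  A.filter fun a => T ≤ ((RL.onLine A a w).card : ℝ)

open Classical in
/-- The points of `A` which lie on some line containing at least `T` points of `A`. -/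
noncomputable def richAny (A : Finset ℂ) (T : ℝ) : Finset ℂ :=
  A.filter fun a => ∃ w : ℂ, w ≠ 0 ∧ T ≤ ((RL.onLine A a w).card : ℝ)

open Classical in
/-- There are a rational basis `v 1, ..., v d` (`d ≤ D`) of `lam * K`, `K` a number field of degree `d` closed under
complex conjugation and not real, positive integers `N i` with `∏ (2 N i + 1) ≤ n (log n) ^ F`, `n` the number of points of `A`,
and a set `Z` of at most `(log n) ^ F` numbers such that at least `c n` points of `A` are of the form `z + ∑ x i v i` with
`z` in `Z` and integers `|x i| ≤ N i`. -/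
def LatticeLike (D F : ℕ) (c : ℝ) (A : Finset ℂ) : Prop :=
  ∃ (d : ℕ) (v : Fin d → ℂ) (N : Fin d → ℕ) (Z : Finset ℂ), d ≤ D ∧ LinearIndependent ℚ v ∧
      RL.FieldStr v ∧ (∀ i, 1 ≤ N i) ∧
      (∏ i, (2 * (N i : ℝ) + 1)) ≤ A.card * Real.log A.card ^ F ∧
      (Z.card : ℝ) ≤ Real.log A.card ^ F ∧
      c * (A.card : ℝ) ≤ (A.filter fun a => ∃ z ∈ Z, ∃ x : Fin d → ℤ, (∀ i, |x i| ≤ N i) ∧
        a = z + ∑ i, (x i : ℂ) * v i).card

end Pool.Agent.SD
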