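import Pool.Agent.Lib.MP_6f2296_co.Mg.G002

/-!
# Definitions for the independent case
-/

set_option autoImplicit false

open Finset

namespace Pool.Agent.SD

/-- `M` has rank `m` and meets the coordinate subspaces `Ej (2m) j` in rank at most `j/2`. -/
def Half {m : ℕ} (M : Submodule ℤ (Fin (m + m) → ℤ)) : Prop :=
  Module.finrank ℤ M = m ∧ ∀ j, j ≤ m + m →
    2 * Module.finrank ℤ (M ⊓ Ej (m + m) j : Submodule ℤ (Fin (m + m) → ℤ)) ≤ j

/-- A basis adapted to the norm with its properties. -/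
structure Bs {m : ℕ} (N : Fin (m + m) → ℝ) (M : Submodule ℤ (Fin (m + m) → ℤ)) (C : ℝ)
    (b : Fin m → (Fin (m + m) → ℤ)) (β : Fin m → ℝ) : Prop where
  ind : LinearIndependent ℤ b
  mem : ∀ i, b i ∈ M
  nrm : ∀ i t, 0 ≤ t → (b i ∈ wB N t ↔ β i ≤ t)
  pos : ∀ i, 0 < β i
  mono : Monotone β
  low : ∀ i : Fin m, 1 ≤ β i * N ⟨2 * (i : ℕ) + 1, by omega⟩
  up : ∀ t, 0 ≤ t → (cM N M t : ℝ) ≤ C * ∏ i, max 1 (t / β i)
  lo : ∀ t, 0 ≤ t → ∏ i, max 1 (t / β i) ≤ C * (cM N M t : ℝ)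

end Pool.Agent.SD
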