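import Pool.Agent.Lib.MP_6f2296_co.SD.EDefs
import Pool.Agent.Lib.MP_6f2296_co.RL.Ra

/-!
# Definitions for the rigidity argument with unequal sides
-/

set_option autoImplicit false

open Finset Polynomial

namespace Pool.Agent.SD

open RL

/-- The matrix `A0 + T A1` kills `m` integer vectors (the columns of `Y`) of the box with the sides `M i`, and
`A1 Y` is invertible. -/
def HypW {m : ℕ} (A0 A1 : Matrix (Fin m) (Fin (m + m)) ℤ) (M : Fin (m + m) → ℝ) (T : ℤ) : Prop :=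
  ∃ Y : Matrix (Fin (m + m)) (Fin m) ℤ, (∀ i j, |(Y i j : ℝ)| ≤ M i) ∧ (A0 + T • A1) * Y = 0 ∧
    (A1 * Y).det ≠ 0

/-- The data of the rigidity argument, with bounds depending on the minor. -/
structure RdatW {ι : Type*} [Fintype ι] (m : ℕ) (P : ι → ℤ[X]) (G : Finset ℤ) (J1 J2 : ι → ℝ) : Prop where
  deg : ∀ f, (P f).natDegree ≤ m
  prim : Prim P
  val : ∀ T ∈ G, ∀ f, |(((P f).eval T : ℤ) : ℝ)| ≤ hh P T * J1 f
  comb : ∀ T ∈ G, ∃ (ρ : ℤ) (c : ι → ℤ), ρ ≠ 0 ∧ (∀ f, |(c f : ℝ)| ≤ J2 f) ∧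
    ∑ f, C (c f) * P f = C ρ * (X - C T) ^ m

/-- The bound for the minors. -/
noncomputable def J1 {m : ℕ} (M : Fin (m + m) → ℝ) (f : Fin m → Fin (m + m)) : ℝ :=
  (m + m).factorial * (∏ i, M i) / ∏ k, M (f k)

/-- The bound for the coefficients. -/
noncomputable def J2 {m : ℕ} (M : Fin (m + m) → ℝ) (f : Fin m → Fin (m + m)) : ℝ := ∏ k, M (f k)

/-- `∏ p ^ ⌈v_p(q) / m⌉`. -/
def star (m q : ℕ) : ℕ := ∏ p ∈ q.primeFactors, p ^ ((q.factorization p + m - 1) / m)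

/-- For every prime power `p ^ a`, `(b - 1) m < a`, the integers `T` with `p ^ a ∣ h T` lie in at most `m` classes
modulo `p ^ b`. -/
def FewCl (m : ℕ) (h : ℤ → ℕ) : Prop :=
  ∀ p a b : ℕ, p.Prime → 1 ≤ b → (b - 1) * m < a →
    ∃ K : Finset (ZMod (p ^ b)), K.card ≤ m ∧ ∀ T : ℤ, p ^ a ∣ h T → (T : ZMod (p ^ b)) ∈ K

end Pool.Agent.SD
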