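import Pool.Agent.Lib.MP_6f2296_co.SD.Defs
import Pool.Agent.Lib.MP_6f2296_co.SD.RB

/-!
# Reduced bases: interface for `LNorm`
-/

set_option autoImplicit false

open Finset

namespace Pool.Agent.SD

section

variable {Λ : Type} [AddCommGroup Λ]

theorem LNorm.isLN (ν : LNorm Λ) : IsLN ν.val := ⟨ν.add, ν.smul, ν.fin⟩

/-- A norm in the sense of `IsLN` on a torsion free group. -/
noncomputable def IsLN.toLNorm [Module.IsTorsionFree ℤ Λ] {f : Λ → ℝ} (h : IsLN f) : LNorm Λ where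
  val := f
  pos _ hx := h.pos hx
  smul := h.smul
  add := h.add_le
  fin := h.fin

theorem LNorm.zero (ν : LNorm Λ) : ν 0 = 0 := ν.isLN.zero

theorem LNorm.neg (ν : LNorm Λ) (x : Λ) : ν (-x) = ν x := ν.isLN.neg x

theorem LNorm.nonneg (ν : LNorm Λ) (x : Λ) : 0 ≤ ν x := ν.isLN.nonneg x

theorem LNorm.sub_le (ν : LNorm Λ) (x y : Λ) : ν (x - y) ≤ ν x + ν y := ν.isLN.sub_le x y

theorem LNorm.sum_le (ν : LNorm Λ) {ι : Type*} (s : Finset ι) (g : ι → Λ) :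
    ν (∑ i ∈ s, g i) ≤ ∑ i ∈ s, ν (g i) := ν.isLN.sum_le s g

theorem LNorm.exists_min (ν : LNorm Λ) {S : Set Λ} (hS : S.Nonempty) : ∃ b ∈ S, ∀ x ∈ S, ν b ≤ ν x :=
  ν.isLN.exists_min hS

theorem LNorm.cnt_mono (ν : LNorm Λ) {s t : ℝ} (h : s ≤ t) : ν.cnt s ≤ ν.cnt t :=
  card_le_card fun _ hx => LNorm.mem_ball.mpr ((LNorm.mem_ball.mp hx).trans h)

theorem LNorm.one_le_cnt (ν : LNorm Λ) {t : ℝ} (ht : 0 ≤ t) : 1 ≤ ν.cnt t :=
  card_pos.mpr ⟨0, LNorm.mem_ball.mpr (by rw [ν.zero]; exact ht)⟩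

/-- A reduced basis. -/
def Red (ν : LNorm Λ) (C : ℝ) {r : ℕ} (b : Module.Basis (Fin r) ℤ Λ) : Prop :=
  Monotone (fun i => ν (b i)) ∧ ∀ x i, |(b.repr x i : ℝ)| * ν (b i) ≤ C * ν x

theorem exists_red (r : ℕ) : ∃ C : ℝ, 1 ≤ C ∧ ∀ (Λ : Type) [AddCommGroup Λ] [Module.Free ℤ Λ]
    [Module.Finite ℤ Λ] (ν : LNorm Λ), Module.finrank ℤ Λ = r →
    ∃ b : Module.Basis (Fin r) ℤ Λ, Red ν C b := by
  obtain ⟨C, hC, H⟩ := exists_reduced r
  refine ⟨C, hC, ?_⟩
  intro Λ _ _ _ ν hr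
  obtain ⟨e, he⟩ := H Λ hr ν.val ν.isLN
  set b0 : Module.Basis (Fin r) ℤ Λ := Module.Basis.ofEquivFun e with hb0
  set σ : Equiv.Perm (Fin r) := Tuple.sort (fun i => ν (b0 i)) with hσ
  refine ⟨b0.reindex σ.symm, ?_, ?_⟩
  · have h1 := Tuple.monotone_sort (fun i => ν (b0 i))
    intro i j hij
    have h2 := h1 hij
    simpa [Module.Basis.reindex_apply, hσ] using h2
  · intro x i
    have h1 := he x (σ i)
    have h2 : (b0.reindex σ.symm) i = b0 (σ i) := by simp [Module.Basis.reindex_apply]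
    have h3 : (b0.reindex σ.symm).repr x i = b0.repr x (σ i) := by
      simp
    rw [h2, h3]
    have h4 : b0 (σ i) = e.symm (Pi.single (σ i) 1) := by
      rw [hb0, Module.Basis.coe_ofEquivFun]
    have h5 : b0.repr x (σ i) = e x (σ i) := by
      rw [hb0, Module.Basis.ofEquivFun_repr_apply]
    rw [h4, h5]
    exact h1

theorem Red.cnt_le {ν : LNorm Λ} {C : ℝ} {r : ℕ} {b : Module.Basis (Fin r) ℤ Λ} (h : Red ν C b)
    (hC : 1 ≤ C) {t : ℝ} (ht : 0 ≤ t) :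
    (ν.cnt t : ℝ) ≤ (3 * C) ^ r * ∏ i, max 1 (t / ν (b i)) := by
  classical
  have hpos : ∀ i, 0 < ν (b i) := fun i => ν.pos _ (b.ne_zero i)
  have h1 : ν.cnt t ≤ (wB (fun i => C / ν (b i)) t).card := by
    refine card_le_card_of_injOn (fun x => b.equivFun x) ?_ (fun x _ y _ hxy => b.equivFun.injective hxy)
    intro x hx
    have hx' := LNorm.mem_ball.mp (mem_coe.mp hx)
    refine mem_coe.mpr (mem_wB.mpr fun i => ?_)
    have h2 := h.2 x i
    change |(b.equivFun x i : ℝ)| ≤ t * (C / ν (b i))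
    rw [Module.Basis.equivFun_apply]
    rw [← mul_div_assoc, le_div_iff₀ (hpos i)]
    calc |(b.repr x i : ℝ)| * ν (b i) ≤ C * ν x := h2
      _ ≤ t * C := by nlinarith [ν.nonneg x]
  have h2 : ((wB (fun i => C / ν (b i)) t).card : ℝ) ≤ ∏ i : Fin r, (3 * C) * max 1 (t / ν (b i)) := by
    unfold wB
    rw [Fintype.card_piFinset, Nat.cast_prod]
    refine prod_le_prod (fun _ _ => Nat.cast_nonneg _) fun i _ => ?_
    rw [Int.card_Icc]
    set u := t / ν (b i) with hu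
    have hu0 : 0 ≤ u := div_nonneg ht (hpos i).le
    have h3 : t * (C / ν (b i)) = C * u := by rw [hu]; ring
    rw [h3]
    have h4 : (0 : ℤ) ≤ ⌊C * u⌋ := Int.floor_nonneg.mpr (by positivity)
    have h5 : ((⌊C * u⌋ + 1 - -⌊C * u⌋).toNat : ℝ) = 2 * (⌊C * u⌋ : ℝ) + 1 := by
      have : (((⌊C * u⌋ + 1 - -⌊C * u⌋).toNat : ℤ) : ℝ) = ((⌊C * u⌋ + 1 - -⌊C * u⌋ : ℤ) : ℝ) := by
        rw [Int.toNat_of_nonneg (by omega)]
      rw [← Int.cast_natCast, this]
      push_cast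
      ring
    rw [h5]
    have h6 : (⌊C * u⌋ : ℝ) ≤ C * u := Int.floor_le _
    have h7 : (1 : ℝ) ≤ max 1 u := le_max_left _ _
    have h8 : u ≤ max 1 u := le_max_right _ _
    nlinarith
  calc (ν.cnt t : ℝ) ≤ ((wB (fun i => C / ν (b i)) t).card : ℝ) := by exact_mod_cast h1
    _ ≤ ∏ i : Fin r, (3 * C) * max 1 (t / ν (b i)) := h2
    _ = (3 * C) ^ r * ∏ i, max 1 (t / ν (b i)) := by
        rw [prod_mul_distrib, prod_const, card_univ, Fintype.card_fin]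

theorem le_cnt {ν : LNorm Λ} {r : ℕ} (b : Module.Basis (Fin r) ℤ Λ) {t : ℝ} (ht : 0 ≤ t) :
    ∏ i, max 1 (t / ν (b i)) ≤ (max 1 (r : ℝ)) ^ r * ν.cnt t := by
  classical
  have hpos : ∀ i, 0 < ν (b i) := fun i => ν.pos _ (b.ne_zero i)
  set R : ℝ := max 1 (r : ℝ) with hR
  have hR1 : 1 ≤ R := le_max_left _ _
  have hRr : (r : ℝ) ≤ R := le_max_right _ _
  have hRpos : 0 < R := by linarith
  set P : Finset (Fin r → ℤ) := Fintype.piFinset fun i => Finset.Icc 0 ⌊t / (R * ν (b i))⌋ with hP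
  have hmem : ∀ y, y ∈ P ↔ ∀ i, 0 ≤ y i ∧ (y i : ℝ) ≤ t / (R * ν (b i)) := by
    intro y
    rw [hP, Fintype.mem_piFinset]
    refine forall_congr' fun i => ?_
    rw [Finset.mem_Icc, Int.le_floor]
  have h1 : P.card ≤ ν.cnt t := by
    refine card_le_card_of_injOn (fun y => b.equivFun.symm y) ?_
      (fun x _ y _ hxy => b.equivFun.symm.injective hxy)
    intro y hy
    have hy' := (hmem y).mp (mem_coe.mp hy)
    refine mem_coe.mpr (LNorm.mem_ball.mpr ?_)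
    change ν (b.equivFun.symm y) ≤ t
    rw [Module.Basis.equivFun_symm_apply]
    calc ν (∑ i, y i • b i) ≤ ∑ i, ν (y i • b i) := ν.sum_le _ _
      _ ≤ ∑ _i : Fin r, t / R := by
          gcongr with i _
          rw [ν.smul, abs_of_nonneg (by exact_mod_cast (hy' i).1)]
          calc (y i : ℝ) * ν (b i) ≤ t / (R * ν (b i)) * ν (b i) := by
                gcongr
                · exact (hpos i).le
                · exact (hy' i).2
            _ = t / R := by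
                have := (hpos i).ne'
                field_simp
      _ = r * (t / R) := by simp
      _ ≤ R * (t / R) := by gcongr
      _ = t := by field_simp
  have h2 : ∏ i : Fin r, max 1 (t / ν (b i)) ≤ R ^ r * (P.card : ℝ) := by
    have h3 : R ^ r * (P.card : ℝ) = ∏ i : Fin r, R * ((Finset.Icc 0 ⌊t / (R * ν (b i))⌋).card : ℝ) := by
      rw [prod_mul_distrib, prod_const, card_univ, Fintype.card_fin, hP, Fintype.card_piFinset, Nat.cast_prod]
    rw [h3]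
    refine prod_le_prod (fun _ _ => le_trans zero_le_one (le_max_left _ _)) fun i _ => ?_
    rw [Int.card_Icc]
    set u := t / (R * ν (b i)) with hu
    have hu0 : 0 ≤ u := div_nonneg ht (mul_nonneg hRpos.le (hpos i).le)
    have h4 : (0 : ℤ) ≤ ⌊u⌋ := Int.floor_nonneg.mpr hu0
    have h5 : ((⌊u⌋ + 1 - 0).toNat : ℝ) = (⌊u⌋ : ℝ) + 1 := by
      have : (((⌊u⌋ + 1 - 0).toNat : ℤ) : ℝ) = ((⌊u⌋ + 1 - 0 : ℤ) : ℝ) := by
        rw [Int.toNat_of_nonneg (by omega)]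
      rw [← Int.cast_natCast, this]
      push_cast
      ring
    rw [h5]
    have h6 : u < ⌊u⌋ + 1 := Int.lt_floor_add_one u
    have h7 : (0 : ℝ) ≤ ⌊u⌋ := by exact_mod_cast h4
    have h8 : t / ν (b i) = R * u := by
      rw [hu]
      have := (hpos i).ne'
      field_simp
    rw [h8]
    refine max_le ?_ ?_
    · nlinarith
    · nlinarith
  calc ∏ i, max 1 (t / ν (b i)) ≤ R ^ r * (P.card : ℝ) := h2
    _ ≤ R ^ r * ν.cnt t := by gcongr

theorem Red.norm_le [Module.Finite ℤ Λ] {ν : LNorm Λ} {C : ℝ} {r : ℕ} {b : Module.Basis (Fin r) ℤ Λ}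
    (h : Red ν C b) (hr : Module.finrank ℤ (Submodule.span ℤ (ν.ball 1 : Set Λ)) = r) (hC : 1 ≤ C)
    (i : Fin r) : ν (b i) ≤ C := by
  have hex : ∃ x ∈ ν.ball 1, b.repr x i ≠ 0 := by
    by_contra hcon
    push Not at hcon
    have : Module.Free ℤ Λ := Module.Free.of_basis b
    have hle : Submodule.span ℤ (ν.ball 1 : Set Λ) ≤ LinearMap.ker (b.coord i) := by
      rw [Submodule.span_le]
      intro x hx
      exact hcon x (mem_coe.mp hx)
    have h1 : Module.finrank ℤ Λ = r := by rw [Module.finrank_eq_card_basis b, Fintype.card_fin]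
    have h2 := Submodule.finrank_quotient_add_finrank (R := ℤ) (LinearMap.ker (b.coord i))
    rw [(LinearMap.quotKerEquivRange (b.coord i)).finrank_eq] at h2
    have h3 : LinearMap.range (b.coord i) = ⊤ := by
      rw [LinearMap.range_eq_top]
      intro n
      refine ⟨n • b i, ?_⟩
      simp
    rw [h3, finrank_top, Module.finrank_self, h1] at h2
    have h4 := Submodule.finrank_mono hle
    omega
  obtain ⟨x, hx, hxi⟩ := hex
  have h1 := h.2 x i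
  have h2 : (1 : ℝ) ≤ |(b.repr x i : ℝ)| := by
    have h3 : (1 : ℤ) ≤ |b.repr x i| := Int.one_le_abs hxi
    have h4 : ((1 : ℤ) : ℝ) ≤ ((|b.repr x i| : ℤ) : ℝ) := by exact_mod_cast h3
    rw [Int.cast_abs] at h4
    exact_mod_cast h4
  have h3 := LNorm.mem_ball.mp hx
  calc ν (b i) = 1 * ν (b i) := (one_mul _).symm
    _ ≤ |(b.repr x i : ℝ)| * ν (b i) := by
        have := ν.nonneg (b i)
        gcongr
    _ ≤ C * ν x := h1
    _ ≤ C * 1 := by gcongr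
    _ = C := mul_one C

theorem cntU (r : ℕ) : ∃ C : ℝ, 1 ≤ C ∧ ∀ (Λ : Type) [AddCommGroup Λ] [Module.Free ℤ Λ]
    [Module.Finite ℤ Λ] (ν : LNorm Λ), Module.finrank ℤ Λ = r → ∀ s t : ℝ, 0 < s → s ≤ t →
    (ν.cnt t : ℝ) ≤ (C * (t / s)) ^ r * ν.cnt s := by
  obtain ⟨C, hC, H⟩ := exists_red r
  refine ⟨3 * C * max 1 (r : ℝ), by nlinarith [le_max_left (1 : ℝ) (r : ℝ)], ?_⟩
  intro Λ _ _ _ ν hr s t hs hst
  obtain ⟨b, hb⟩ := H Λ ν hr
  have hpos : ∀ i, 0 < ν (b i) := fun i => ν.pos _ (b.ne_zero i)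
  have h1 := hb.cnt_le hC (hs.le.trans hst)
  have h2 := le_cnt (ν := ν) b hs.le
  have hts : 1 ≤ t / s := by rw [le_div_iff₀ hs, one_mul]; exact hst
  have h3 : ∏ i, max 1 (t / ν (b i)) ≤ (t / s) ^ r * ∏ i, max 1 (s / ν (b i)) := by
    have h4 : (t / s) ^ r * ∏ i, max 1 (s / ν (b i)) = ∏ i, (t / s) * max 1 (s / ν (b i)) := by
      rw [prod_mul_distrib, prod_const, card_univ, Fintype.card_fin]
    rw [h4]
    refine prod_le_prod (fun _ _ => le_trans zero_le_one (le_max_left _ _)) fun i _ => max_le ?_ ?_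
    · calc (1 : ℝ) = 1 * 1 := (one_mul 1).symm
        _ ≤ t / s * max 1 (s / ν (b i)) := by gcongr; exact le_max_left _ _
    · calc t / ν (b i) = t / s * (s / ν (b i)) := by
            have := (hpos i).ne'
            field_simp
        _ ≤ t / s * max 1 (s / ν (b i)) := by gcongr; exact le_max_right _ _
  calc (ν.cnt t : ℝ) ≤ (3 * C) ^ r * ∏ i, max 1 (t / ν (b i)) := h1
    _ ≤ (3 * C) ^ r * ((t / s) ^ r * ∏ i, max 1 (s / ν (b i))) := by gcongr
    _ ≤ (3 * C) ^ r * ((t / s) ^ r * ((max 1 (r : ℝ)) ^ r * ν.cnt s)) := by gcongr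
    _ = (3 * C * max 1 (r : ℝ) * (t / s)) ^ r * ν.cnt s := by
        simp only [mul_pow]; ring

theorem cntL (r : ℕ) : ∃ C : ℝ, 1 ≤ C ∧ ∀ (Λ : Type) [AddCommGroup Λ] [Module.Free ℤ Λ]
    [Module.Finite ℤ Λ] (ν : LNorm Λ), Module.finrank ℤ Λ = r →
    Module.finrank ℤ (Submodule.span ℤ (ν.ball 1 : Set Λ)) = r → ∀ R : ℝ, 1 ≤ R →
    R ^ r * ν.cnt 1 ≤ C * ν.cnt R := by
  obtain ⟨C, hC, H⟩ := exists_red r
  refine ⟨(3 * C * C * max 1 (r : ℝ)) ^ r, ?_, ?_⟩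
  · refine one_le_pow₀ ?_
    have h1 : 1 ≤ max 1 (r : ℝ) := le_max_left _ _
    have h2 : 1 ≤ 3 * C * C := by nlinarith
    nlinarith
  intro Λ _ _ _ ν hr hsp R hR
  obtain ⟨b, hb⟩ := H Λ ν hr
  have hpos : ∀ i, 0 < ν (b i) := fun i => ν.pos _ (b.ne_zero i)
  have h1 := hb.cnt_le hC (zero_le_one' ℝ)
  have h2 := le_cnt (ν := ν) b (by linarith : (0 : ℝ) ≤ R)
  have h3 : R ^ r * ∏ i, max 1 (1 / ν (b i)) ≤ C ^ r * ∏ i, max 1 (R / ν (b i)) := by
    have h4 : R ^ r * ∏ i, max 1 (1 / ν (b i)) = ∏ i, R * max 1 (1 / ν (b i)) := by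
      rw [prod_mul_distrib, prod_const, card_univ, Fintype.card_fin]
    have h5 : C ^ r * ∏ i, max 1 (R / ν (b i)) = ∏ i, C * max 1 (R / ν (b i)) := by
      rw [prod_mul_distrib, prod_const, card_univ, Fintype.card_fin]
    rw [h4, h5]
    refine prod_le_prod (fun _ _ => by positivity) fun i _ => ?_
    have h6 := hb.norm_le hsp hC i
    have h7 : max 1 (1 / ν (b i)) ≤ C / ν (b i) := by
      refine max_le ?_ ?_
      · rw [le_div_iff₀ (hpos i), one_mul]; exact h6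
      · have := hpos i
        gcongr
    have hR0 : 0 ≤ R := by linarith
    calc R * max 1 (1 / ν (b i)) ≤ R * (C / ν (b i)) := by gcongr
      _ = C * (R / ν (b i)) := by ring
      _ ≤ C * max 1 (R / ν (b i)) := by gcongr; exact le_max_right _ _
  have hR0 : 0 ≤ R := by linarith
  calc R ^ r * (ν.cnt 1 : ℝ) ≤ R ^ r * ((3 * C) ^ r * ∏ i, max 1 (1 / ν (b i))) := by gcongr
    _ = (3 * C) ^ r * (R ^ r * ∏ i, max 1 (1 / ν (b i))) := by ring
    _ ≤ (3 * C) ^ r * (C ^ r * ∏ i, max 1 (R / ν (b i))) := by gcongr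
    _ ≤ (3 * C) ^ r * (C ^ r * ((max 1 (r : ℝ)) ^ r * ν.cnt R)) := by gcongr
    _ = (3 * C * C * max 1 (r : ℝ)) ^ r * ν.cnt R := by
        simp only [mul_pow]; ring

/-- The quotient norm on `Λ / ℤ k` (when this group is torsion free). -/
noncomputable def LNorm.quo (ν : LNorm Λ) (k : Λ) [Module.IsTorsionFree ℤ (Λ ⧸ Submodule.span ℤ {k})] :
    LNorm (Λ ⧸ Submodule.span ℤ {k}) := (isLN_qn ν.isLN k).toLNorm

variable (ν : LNorm Λ) (k : Λ) [Module.IsTorsionFree ℤ (Λ ⧸ Submodule.span ℤ {k})]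

theorem LNorm.quo_le (x : Λ) : ν.quo k (Submodule.Quotient.mk x) ≤ ν x := qn_mk_le ν.isLN k x

theorem LNorm.quo_lift (hk : k ≠ 0) (x : Λ ⧸ Submodule.span ℤ {k}) :
    ∃ y : Λ, Submodule.Quotient.mk y = x ∧ ν y ≤ ν.quo k x + 3 / 4 * ν k := by
  obtain ⟨y, h1, h2⟩ := exists_lift ν.isLN k x (ε := ν k / 4) (by have := ν.pos k hk; positivity)
  exact ⟨y, h1, h2.trans (by change qn ν.val k x + ν k / 2 + ν k / 4 ≤ qn ν.val k x + 3 / 4 * ν k; linarith)⟩

theorem LNorm.quo_near (x : Λ) {ε : ℝ} (hε : 0 < ε) :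
    ∃ (m : ℕ) (j : ℤ), 1 ≤ m ∧ ν (m • x - j • k) ≤ m * (ν.quo k (Submodule.Quotient.mk x) + ε) := by
  obtain ⟨m, y, hm, hy, hlt⟩ := exists_near ν.isLN k (Submodule.Quotient.mk x) hε
  have h1 : m • x - y ∈ Submodule.span ℤ {k} := by
    rw [← Submodule.Quotient.eq, hy, Submodule.Quotient.mk_smul]
  obtain ⟨j, hj⟩ := Submodule.mem_span_singleton.mp h1
  refine ⟨m, j, hm, ?_⟩
  have h2 : m • x - j • k = y := by rw [hj]; abel
  have hmpos : (0 : ℝ) < m := by exact_mod_cast hm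
  rw [h2]
  rw [div_lt_iff₀ hmpos] at hlt
  have h3 : ν.quo k (Submodule.Quotient.mk x) = qn ν.val k (Submodule.Quotient.mk x) := rfl
  rw [h3]
  linarith

end

/-- The quotient by a vector which is shortest in a pure subgroup is torsion free. -/
theorem torsionFree_quo {Λ : Type} [AddCommGroup Λ] [Module.IsTorsionFree ℤ Λ] (ν : LNorm Λ)
    (S : Submodule ℤ Λ) (hpure : ∀ (n : ℤ) (x : Λ), n ≠ 0 → n • x ∈ S → x ∈ S) {b : Λ} (hb : b ≠ 0)
    (hbS : b ∈ S) (hmin : ∀ x ∈ S, x ≠ 0 → ν b ≤ ν x) :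
    Module.IsTorsionFree ℤ (Λ ⧸ (Submodule.span ℤ {b})) :=
  torsionFree_quot ν.isLN hb (S := (S : Set Λ)) hbS hmin (fun _ hx _ hy => S.sub_mem hx hy)
    (fun n _ hx => S.smul_mem n hx) hpure

end Pool.Agent.SD
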