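import Pool.Agent.Lib.MP_6f2296_co.Mg.G002

/-!
# TASK SD D2: the kernel is zero

PROOF.  Suppose `L k₀ = 0`, `k₀ ≠ 0`.  Let `C₀` be a common constant (at least `1`) of `D2a d`, `D2b d` and of `cnt_upper r` for all `r ≤ d`, `V = ∏ N i`, `T = Q^3`,
`κ R = #{x ∈ wB N R | L x = 0} = cM N (Kr L) R`, `C₁ = 4 C₀`.  `κ` is nondecreasing and unbounded (`wB N R` contains `n k₀` for `|n| bN(k₀) ≤ R`), and `κ (2T/3) = 1 < C₁ Q` by the
hypothesis on the kernel.  Let `i` be minimal with `κ (2 * 2^i T/3) ≥ C₁ Q` (`Nat.find`), so `i ≥ 1`, and let `R = 2^i T/3 ≥ 1` (`Q ≥ 3`).  By minimality (`2 * 2^(i-1) = 2^i`):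
`κ R < C₁ Q ≤ κ (2R)`, and by `cnt_upper` for `(bN N hN).res (Kr L)` (`cnt_res`): `κ (2R) ≤ (2 C₀)^d κ R ≤ (2 C₀)^d C₁ Q` (`finrank (Kr L) ≤ d`, base at least `1`).
Let `Θ₁` be the set of the `θ ∈ Θ` such that all `x ∈ Gm L N θ ∩ wB N (2R)` with `L x = 0` are `0`.  `D2a`: `(|Θ₁| - 2) C₁ Q ≤ (|Θ₁| - 2) κ (2R) ≤ C₀ V/ν²` (if `|Θ₁| ≥ 2`), so with
`V ≤ Q |Θ| ν²`: `|Θ₁| ≤ 2 + (C₀/C₁) |Θ| = 2 + |Θ|/4`.
For `θ ∈ Θ \ Θ₁` let `k θ` be a shortest nonzero vector of `Gm L N θ ∩ Kr L` (`LNorm.exists_min`); it lies in `wB N (2R)` and its norm is at least `T` (otherwise it would be in `wB N T`),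
so at least `8`.  So `Θ \ Θ₁` is the union over the at most `κ (2R)` vectors `k ∈ wB N (2R)`, `k ≠ 0`, `L k = 0`, of the sets `{θ | k θ = k}`, which have by `D2b` at most
`2 + C₀ V/(T ν²)` elements.  So `|Θ \ Θ₁| ≤ (2 C₀)^d C₁ Q (2 + C₀ V/(Q^3 ν²)) ≤ C₂ Q + C₂ |Θ|/Q` with `C₂ = 2 (2 C₀)^d C₁ C₀` (`V/ν² ≤ Q |Θ|`).
If `C` is large: `Q ≥ C` gives `C₂/Q ≤ 1/8`, and `C Q^3 ν² ≤ V ≤ Q |Θ| ν²` gives `|Θ| ≥ C Q² ≥ 8 C₂ Q` and `|Θ| > 8`.  So `|Θ| ≤ 2 + |Θ|/4 + |Θ|/8 + |Θ|/8 = 2 + |Θ|/2`, so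
`|Θ| ≤ 4`, a contradiction.
-/

set_option autoImplicit false

open scoped ComplexConjugate
open Finset

namespace Pool.Agent.SD

private theorem D2_wB {d : ℕ} {N : Fin d → ℝ} (hN : ∀ i, 1 ≤ N i) (k : Fin d → ℤ) :
    ∃ R : ℝ, 0 ≤ R ∧ ∀ n : ℕ, (n : ℤ) • k ∈ wB N ((n : ℝ) * R) := by
  refine ⟨∑ i, |(k i : ℝ)|, Finset.sum_nonneg fun i _ => abs_nonneg _, fun n => ?_⟩
  rw [mem_wB]
  intro i
  have h1 : |(k i : ℝ)| ≤ ∑ i, |(k i : ℝ)| :=
    Finset.single_le_sum (f := fun i => |(k i : ℝ)|) (fun i _ => abs_nonneg _) (Finset.mem_univ i)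
  have h0 : (0 : ℝ) ≤ ∑ i, |(k i : ℝ)| := Finset.sum_nonneg fun i _ => abs_nonneg _
  rw [Pi.smul_apply, smul_eq_mul]
  push_cast
  rw [abs_mul, Nat.abs_cast]
  have h2 : (∑ i, |(k i : ℝ)|) ≤ (∑ i, |(k i : ℝ)|) * N i := le_mul_of_one_le_right h0 (hN i)
  calc (n : ℝ) * |(k i : ℝ)| ≤ n * ((∑ i, |(k i : ℝ)|) * N i) := by gcongr; linarith
    _ = n * (∑ i, |(k i : ℝ)|) * N i := by ring

private theorem D2_unb {d : ℕ} {N : Fin d → ℝ} (hN : ∀ i, 1 ≤ N i) (L : (Fin d → ℤ) →+ ℂ)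
    {k : Fin d → ℤ} (hk : L k = 0) (hk0 : k ≠ 0) (A : ℝ) :
    ∃ R : ℝ, 0 ≤ R ∧ A ≤ (cM N (Kr L) R : ℝ) := by
  classical
  obtain ⟨R, hR0, hR⟩ := D2_wB hN k
  obtain ⟨m, hm⟩ := exists_nat_ge A
  refine ⟨m * R, by positivity, hm.trans ?_⟩
  have hinj : Function.Injective fun n : ℕ => (n : ℤ) • k := by
    intro a b hab
    have h1 : ((a : ℤ) - (b : ℤ)) • k = 0 := by
      rw [sub_smul]
      exact sub_eq_zero.mpr hab
    rcases smul_eq_zero.mp h1 with h | h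
    · omega
    · exact absurd h hk0
  have h1 : ((Finset.range m).image fun n : ℕ => (n : ℤ) • k) ⊆ (wB N (m * R)).filter (· ∈ Kr L) := by
    intro x hx
    obtain ⟨n, hn, rfl⟩ := Finset.mem_image.mp hx
    refine Finset.mem_filter.mpr ⟨?_, ?_⟩
    · refine wB_mono (fun i => zero_le_one.trans (hN i)) ?_ (hR n)
      have : (n : ℝ) ≤ m := by exact_mod_cast (Finset.mem_range.mp hn).le
      exact mul_le_mul_of_nonneg_right this hR0
    · rw [mem_Kr, map_zsmul, hk, smul_zero]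
  have h2 := Finset.card_le_card h1
  rw [Finset.card_image_of_injective _ hinj, Finset.card_range] at h2
  have h3 : cM N (Kr L) (m * R) = ((wB N (m * R)).filter (· ∈ Kr L)).card := by
    unfold cM
    congr
  rw [h3]
  exact_mod_cast h2

theorem D2 (d : ℕ) : ∃ C : ℝ, 1 ≤ C ∧ ∀ (L : (Fin d → ℤ) →+ ℂ) (N : Fin d → ℝ) (Q ν : ℝ) (Θ : Finset ℂ),
    C ≤ Q → (∀ i, 1 ≤ N i) → (∀ x ∈ wB N (Q ^ 3), L x = 0 → x = 0) → Dirs Θ → C ≤ ν →
    (∀ θ ∈ Θ, ν ≤ (cM N (Mt L θ) 1 : ℝ)) → (∀ θ ∈ Θ, d ≤ 2 * Module.finrank ℤ (Gm L N θ)) →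
    (∏ i, N i) ≤ Q * ((Θ.card : ℝ) * ν ^ 2) → C * Q ^ 3 * ν ^ 2 ≤ ∏ i, N i →
    ∀ x, L x = 0 → x = 0 := by
  classical
  obtain ⟨Ca, hCa1, hCa⟩ := D2a d
  obtain ⟨Cb, hCb1, hCb⟩ := D2b d
  choose Cu hCu1 hCu using cnt_upper
  set C₀ : ℝ := Ca + Cb + ∑ r ∈ Finset.range (d + 1), Cu r with hC₀
  have hsum : 0 ≤ ∑ r ∈ Finset.range (d + 1), Cu r :=
    Finset.sum_nonneg fun r _ => zero_le_one.trans (hCu1 r)
  have hC0a : Ca ≤ C₀ := by rw [hC₀]; linarith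
  have hC0b : Cb ≤ C₀ := by rw [hC₀]; linarith
  have hC0u : ∀ r ≤ d, Cu r ≤ C₀ := by
    intro r hr
    have h1 : Cu r ≤ ∑ r ∈ Finset.range (d + 1), Cu r :=
      Finset.single_le_sum (f := Cu) (fun r _ => zero_le_one.trans (hCu1 r))
        (Finset.mem_range.mpr (by omega))
    rw [hC₀]; linarith
  have hC01 : 1 ≤ C₀ := hCa1.trans hC0a
  clear_value C₀
  set E : ℝ := (2 * C₀) ^ d with hE
  have hE1 : 1 ≤ E := one_le_pow₀ (by linarith)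
  clear_value E
  set C₁ : ℝ := 4 * C₀ with hC₁
  set C₂ : ℝ := 2 * E * C₁ * C₀ with hC₂
  have hC11 : 4 ≤ C₁ := by rw [hC₁]; linarith
  have hEC : 4 ≤ E * C₁ := by nlinarith
  have hC21 : 8 ≤ C₂ := by rw [hC₂]; nlinarith
  refine ⟨8 * C₂ + C₀, by linarith, ?_⟩
  intro L N Q ν Θ hQ hN hker hDirs hν hcM hrk hV1 hV2 k₀ hk₀
  by_contra hk0
  set V := ∏ i, N i with hV
  clear_value V
  have hNpos : ∀ i, 0 < N i := fun i => zero_lt_one.trans_le (hN i)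
  have hNnn : ∀ i, 0 ≤ N i := fun i => (hNpos i).le
  have hQ64 : 64 ≤ Q := by linarith
  have hQpos : 0 < Q := by linarith
  have hνpos : 0 < ν := by linarith
  have hνa : Ca ≤ ν := by linarith
  have hνb : Cb ≤ ν := by linarith
  have hT : 64 ≤ Q ^ 3 := by nlinarith [sq_nonneg Q, mul_pos hQpos hQpos]
  set T := Q ^ 3 with hTdef
  have hTpos : 0 < T := by linarith
  have hV0 : 0 ≤ V := by
    have : 0 ≤ (8 * C₂ + C₀) * T * ν ^ 2 := by positivity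
    linarith
  have hmono : ∀ {s t : ℝ}, s ≤ t → (cM N (Kr L) s : ℝ) ≤ (cM N (Kr L) t : ℝ) := fun h => by
    exact_mod_cast cM_mono hNnn (Kr L) h
  have hκT : (cM N (Kr L) T : ℝ) ≤ 1 := by
    have h1 : cM N (Kr L) T ≤ 1 := by
      unfold cM
      rw [Finset.card_le_one]
      intro a ha b hb
      rw [Finset.mem_filter] at ha hb
      rw [hker a ha.1 (mem_Kr.mp ha.2), hker b hb.1 (mem_Kr.mp hb.2)]
    exact_mod_cast h1
  have hex : ∃ i : ℕ, C₁ * Q ≤ (cM N (Kr L) (2 * (2 ^ i * (T / 3))) : ℝ) := by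
    obtain ⟨R, hR0, hR⟩ := D2_unb hN L hk₀ hk0 (C₁ * Q)
    obtain ⟨i, hi⟩ := exists_nat_ge R
    refine ⟨i, hR.trans (hmono ?_)⟩
    have h1 : (i : ℝ) < 2 ^ i := by exact_mod_cast Nat.lt_two_pow_self
    have h2 : (1 : ℝ) ≤ T / 3 := by linarith
    nlinarith [pow_pos (two_pos : (0 : ℝ) < 2) i]
  set i := Nat.find hex with hi
  have hi1 : C₁ * Q ≤ (cM N (Kr L) (2 * (2 ^ i * (T / 3))) : ℝ) := Nat.find_spec hex
  have hi2 : ∀ j < i, (cM N (Kr L) (2 * (2 ^ j * (T / 3))) : ℝ) < C₁ * Q := fun j hj =>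
    not_le.mp (Nat.find_min hex hj)
  clear_value i
  have hC₁Q : 1 < C₁ * Q := by nlinarith
  have hi0 : i ≠ 0 := by
    rintro rfl
    have h1 := hmono (s := 2 * (2 ^ 0 * (T / 3))) (t := T) (by norm_num; linarith)
    linarith
  set R : ℝ := 2 ^ i * (T / 3) with hR
  have hR1 : 1 ≤ R := by
    have h1 : (1 : ℝ) ≤ 2 ^ i := one_le_pow₀ (by norm_num)
    have h2 : (1 : ℝ) ≤ T / 3 := by linarith
    rw [hR]; nlinarith
  have hκR : (cM N (Kr L) R : ℝ) < C₁ * Q := by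
    have h1 := hi2 (i - 1) (by omega)
    have h2 : (2 : ℝ) * (2 ^ (i - 1) * (T / 3)) = R := by
      rw [hR]
      obtain ⟨j, rfl⟩ := Nat.exists_eq_succ_of_ne_zero hi0
      simp only [Nat.succ_eq_add_one, Nat.add_sub_cancel, pow_succ]
      ring
    rwa [h2] at h1
  have hκ2R : (cM N (Kr L) (2 * R) : ℝ) ≤ E * (C₁ * Q) := by
    set r := Module.finrank ℤ (Kr L) with hr
    have hrd : r ≤ d := by
      have h1 := Submodule.finrank_le (Kr L)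
      rw [Module.finrank_fin_fun] at h1
      exact h1
    have h1 := hCu r (Kr L) ((bN N hNpos).res (Kr L)) hr.symm R (2 * R) (by linarith) (by linarith)
    rw [cnt_res hNpos (Kr L) (by linarith), cnt_res hNpos (Kr L) (by linarith)] at h1
    have h2 : 2 * R / R = 2 := by field_simp
    rw [h2] at h1
    have h3 : (Cu r * 2) ^ r ≤ E := by
      calc (Cu r * 2) ^ r ≤ (2 * C₀) ^ r := by
            refine pow_le_pow_left₀ ?_ ?_ r
            · have := hCu1 r; positivity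
            · have := hC0u r hrd; linarith
        _ ≤ (2 * C₀) ^ d := pow_le_pow_right₀ (by linarith) hrd
        _ = E := hE.symm
    calc (cM N (Kr L) (2 * R) : ℝ) ≤ (Cu r * 2) ^ r * (cM N (Kr L) R : ℝ) := h1
      _ ≤ E * (C₁ * Q) := by gcongr
  have hVν : V / ν ^ 2 ≤ Q * (Θ.card : ℝ) := by
    rw [div_le_iff₀ (by positivity)]
    linarith
  have hsubD : ∀ Θ' ⊆ Θ, Dirs Θ' := fun Θ' h =>
    ⟨fun θ hθ => hDirs.1 θ (h hθ), fun θ hθ θ' hθ' => hDirs.2 θ (h hθ) θ' (h hθ')⟩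
  set P : ℂ → Prop := fun θ => ∀ x ∈ Gm L N θ, x ∈ wB N (2 * R) → L x = 0 → x = 0 with hP
  have hΘ1 : ((Θ.filter P).card : ℝ) ≤ 2 + (Θ.card : ℝ) / 4 := by
    by_cases h2 : ((Θ.filter P).card : ℝ) ≤ 2
    · have : (0 : ℝ) ≤ (Θ.card : ℝ) := Nat.cast_nonneg _
      linarith
    push Not at h2
    have h3 := hCa L N R ν (Θ.filter P) hR1 hN (hsubD _ (Finset.filter_subset _ _)) hνa
      (fun θ hθ => hcM θ (Finset.mem_filter.mp hθ).1) (fun θ hθ => hrk θ (Finset.mem_filter.mp hθ).1)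
      (fun θ hθ => (Finset.mem_filter.mp hθ).2)
    have h4 : cM N (Kr L) (2 * R) = ((wB N (2 * R)).filter fun x => L x = 0).card := by
      unfold cM
      congr
    have h5 : ((((wB N (2 * R)).filter fun x => L x = 0).card : ℕ) : ℝ) = (cM N (Kr L) (2 * R) : ℝ) := by
      rw [h4]
    have h6 : (((Θ.filter P).card : ℝ) - 2) * (cM N (Kr L) (2 * R) : ℝ) ≤ Ca * V / ν ^ 2 := by
      rw [← h5]
      convert h3
    have h7 : (((Θ.filter P).card : ℝ) - 2) * (C₁ * Q) ≤ C₀ * (Q * (Θ.card : ℝ)) := by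
      calc (((Θ.filter P).card : ℝ) - 2) * (C₁ * Q) ≤ (((Θ.filter P).card : ℝ) - 2) * (cM N (Kr L) (2 * R) : ℝ) :=
            mul_le_mul_of_nonneg_left hi1 (by linarith)
        _ ≤ Ca * V / ν ^ 2 := h6
        _ = Ca * (V / ν ^ 2) := by ring
        _ ≤ C₀ * (Q * (Θ.card : ℝ)) := by
            have : 0 ≤ V / ν ^ 2 := by positivity
            gcongr
    rw [hC₁] at h7
    have h8 : 0 < C₀ * Q := by positivity
    have h9 : (C₀ * Q) * (4 * (((Θ.filter P).card : ℝ) - 2)) ≤ (C₀ * Q) * (Θ.card : ℝ) := by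
      linarith
    have h10 := le_of_mul_le_mul_left h9 h8
    linarith
  have hch : ∀ θ ∈ Θ.filter (fun θ => ¬ P θ), ∃ k ∈ Gm L N θ, L k = 0 ∧ k ≠ 0 ∧ k ∈ wB N (2 * R) ∧
      T ≤ bN N hNpos k ∧ ∀ x ∈ Gm L N θ, L x = 0 → x ≠ 0 → bN N hNpos k ≤ bN N hNpos x := by
    intro θ hθ
    have h1 := (Finset.mem_filter.mp hθ).2
    rw [hP] at h1
    push Not at h1
    obtain ⟨x, hx1, hx2, hx3, hx4⟩ := h1
    obtain ⟨k, hk1, hk2⟩ := (bN N hNpos).exists_min (S := {x | x ∈ Gm L N θ ∧ L x = 0 ∧ x ≠ 0}) ⟨x, hx1, hx3, hx4⟩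
    refine ⟨k, hk1.1, hk1.2.1, hk1.2.2, ?_, ?_, fun x h1 h2 h3 => hk2 x ⟨h1, h2, h3⟩⟩
    · have h2 := hk2 x ⟨hx1, hx3, hx4⟩
      have h3 : bN N hNpos x ≤ 2 * R := (bN_le (by linarith)).mpr (mem_wB.mp hx2)
      exact mem_wB.mpr ((bN_le (hN := hNpos) (by linarith)).mp (h2.trans h3))
    · by_contra h2
      push Not at h2
      exact hk1.2.2 (hker k (mem_wB.mpr ((bN_le (hN := hNpos) hTpos.le).mp h2.le)) hk1.2.1)
  choose! k hk using hch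
  have hmaps : ∀ θ ∈ Θ.filter (fun θ => ¬ P θ), k θ ∈ (wB N (2 * R)).filter (· ∈ Kr L) := by
    intro θ hθ
    obtain ⟨h1, h2, h3, h4, -⟩ := hk θ hθ
    exact Finset.mem_filter.mpr ⟨h4, h2⟩
  have hfib : ∀ κ ∈ (wB N (2 * R)).filter (· ∈ Kr L),
      (((Θ.filter (fun θ => ¬ P θ)).filter fun θ => k θ = κ).card : ℝ) ≤ 2 + C₀ * V / (T * ν ^ 2) := by
    intro κ hκ
    rcases ((Θ.filter (fun θ => ¬ P θ)).filter fun θ => k θ = κ).eq_empty_or_nonempty with h0 | ⟨θ₀, hθ₀⟩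
    · rw [h0]
      have : 0 ≤ C₀ * V / (T * ν ^ 2) := by positivity
      simp only [Finset.card_empty, Nat.cast_zero]
      linarith
    obtain ⟨hθ₁, hθ₂⟩ := Finset.mem_filter.mp hθ₀
    have h1 := hk θ₀ hθ₁
    rw [hθ₂] at h1
    obtain ⟨-, h2, h3, h4, h5, -⟩ := h1
    have h6 := hCb L N hNpos κ ν ((Θ.filter (fun θ => ¬ P θ)).filter fun θ => k θ = κ) hN
      (hsubD _ ((Finset.filter_subset _ _).trans (Finset.filter_subset _ _))) hνb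
      (fun θ hθ => hcM θ (Finset.mem_filter.mp (Finset.mem_filter.mp hθ).1).1) h2 (by linarith)
      (fun θ hθ => by
        obtain ⟨h7, h8⟩ := Finset.mem_filter.mp hθ
        have h9 := (hk θ h7).1
        rwa [h8] at h9)
      (fun θ hθ => by
        obtain ⟨h7, h8⟩ := Finset.mem_filter.mp hθ
        have h9 := (hk θ h7).2.2.2.2.2
        rwa [h8] at h9)
    rw [← hV] at h6
    refine h6.trans ?_
    gcongr
  have hΘ2 : ((Θ.filter (fun θ => ¬ P θ)).card : ℝ) ≤ (E * (C₁ * Q)) * (2 + C₀ * V / (T * ν ^ 2)) := by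
    rw [Finset.card_eq_sum_card_fiberwise hmaps]
    push_cast
    have h1 := Finset.sum_le_sum hfib
    rw [Finset.sum_const, nsmul_eq_mul] at h1
    refine h1.trans ?_
    have h2 : (((wB N (2 * R)).filter (· ∈ Kr L)).card : ℝ) ≤ E * (C₁ * Q) := by
      have h3 : cM N (Kr L) (2 * R) = ((wB N (2 * R)).filter (· ∈ Kr L)).card := by
        unfold cM
        congr
      rw [← h3]
      exact hκ2R
    have h4 : 0 ≤ 2 + C₀ * V / (T * ν ^ 2) := by positivity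
    exact mul_le_mul_of_nonneg_right h2 h4
  have hcard : (Θ.card : ℝ) = ((Θ.filter P).card : ℝ) + ((Θ.filter (fun θ => ¬ P θ)).card : ℝ) := by
    rw [← Finset.card_filter_add_card_filter_not (s := Θ) P]
    push_cast
    rfl
  set n : ℝ := (Θ.card : ℝ) with hn
  have hn1 : (8 * C₂ + C₀) * Q ^ 2 ≤ n := by
    have h1 : ((8 * C₂ + C₀) * Q ^ 2) * (Q * ν ^ 2) ≤ n * (Q * ν ^ 2) := by
      calc ((8 * C₂ + C₀) * Q ^ 2) * (Q * ν ^ 2) = (8 * C₂ + C₀) * T * ν ^ 2 := by rw [hTdef]; ring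
        _ ≤ V := hV2
        _ ≤ Q * (n * ν ^ 2) := hV1
        _ = n * (Q * ν ^ 2) := by ring
    exact le_of_mul_le_mul_right h1 (by positivity)
  have hb : (E * (C₁ * Q)) * (2 + C₀ * V / (T * ν ^ 2)) ≤ C₂ * Q + C₂ * n / Q := by
    have h1 : C₀ * V / (T * ν ^ 2) ≤ C₀ * n / Q ^ 2 := by
      have h2 : C₀ * V / (T * ν ^ 2) = C₀ * (V / ν ^ 2) / T := by
        field_simp
      have h3 : C₀ * n / Q ^ 2 = C₀ * (Q * n) / T := by
        rw [hTdef]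
        field_simp
      rw [h2, h3]
      gcongr
    calc (E * (C₁ * Q)) * (2 + C₀ * V / (T * ν ^ 2)) ≤ (E * (C₁ * Q)) * (2 + C₀ * n / Q ^ 2) :=
          mul_le_mul_of_nonneg_left (by linarith) (by positivity)
      _ = 2 * E * C₁ * Q + E * C₁ * C₀ * n / Q := by field_simp
      _ ≤ C₂ * Q + C₂ * n / Q := by
          have hEC0 : 0 ≤ E * C₁ := by linarith
          have hn0 : 0 ≤ n := Nat.cast_nonneg _
          have h4 : 2 * E * C₁ ≤ C₂ := by rw [hC₂]; nlinarith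
          have h5 : E * C₁ * C₀ ≤ C₂ := by
            rw [hC₂]
            have : 0 ≤ E * C₁ * C₀ := by positivity
            nlinarith
          gcongr
  have h1 : C₂ * n / Q ≤ n / 8 := by
    rw [div_le_iff₀ hQpos]
    have hn0 : 0 ≤ n := Nat.cast_nonneg _
    have : 8 * C₂ ≤ Q := by linarith
    nlinarith
  have h2 : C₂ * Q ≤ n / 8 := by
    have h3 : (8 * C₂ + C₀) * Q ≤ (8 * C₂ + C₀) * Q ^ 2 := by
      have : Q ≤ Q ^ 2 := by nlinarith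
      gcongr
    have h4 : 0 ≤ C₀ * Q := by positivity
    linarith
  have h3 : (4 : ℝ) < n := by
    have h5 : (4 : ℝ) < (8 * C₂ + C₀) * Q ^ 2 := by nlinarith
    linarith
  linarith

end Pool.Agent.SD
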