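import Pool.Agent.Lib.MP_6f2296_co.SD.Ff
import Pool.Agent.Lib.MP_6f2296_co.Mg.G005

/-!
# TASK SD F: rigidity

PROOF.  `u = 1 + log Q`.  `Fg` with `K = Q^e₀` (`hbig`: `(m+3) 3^(2m) Q^e₀ ≤ exp (C u²) ≤ M i₀` for large `C`) gives `A0, A1, G`.  Let `M0 = ⌊M i₀⌋₊`, so `M0 ≤ M i₀ ≤ 2 M0` (`M i₀ ≥ 1`), `1 ≤ M0`, `log M0 ≤ log (∏ M i) ≤ Q` (all `M i ≥ 1`).
`M0 ≤ M i₀ ≤ 3^(2m) Q^e₀ |G| ≤ Q^(e₀+1) |G|`, and `M0 ≥ M i₀/2 ≥ exp (C_f u²)` if `C ≥ C_f + 1` (`exp (u²) ≥ 2`).  `Ff` with `e₀ + 1` gives `γ, ℓ`; `Fh` with `X = exp (C_f u²)` gives `w k` in the kernel of `A1`, so in `Mo v (Pi.single i₀ 1)`, and in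
`wB M (2^m X/M0) ⊆ wB M (exp (C u²)/M i₀)` (`2^m X/M0 ≤ 2^(m+1) X/M i₀`).
-/

set_option autoImplicit false

open Finset

namespace Pool.Agent.SD

open RL

theorem F (m : ℕ) (hm : 1 ≤ m) (e₀ : ℕ) : ∃ C : ℝ, 1 ≤ C ∧ ∀ (v : Fin (m + m) → ℂ)
    (M : Fin (m + m) → ℝ) (i₀ : Fin (m + m)) (Q : ℝ) (S : Finset (Fin (m + m) → ℤ)),
    LinearIndependent ℚ v → C ≤ Q → (∀ i, 1 ≤ M i) → (∀ i, M i ≤ M i₀) → Real.log (∏ i, M i) ≤ Q →
    Real.exp (C * (1 + Real.log Q) ^ 2) ≤ M i₀ → S ⊆ wB M 1 → Np v S →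
    (∏ i, M i) ≤ Q ^ e₀ * S.card →
    (∀ y ∈ S, ∃ u : Fin m → (Fin (m + m) → ℤ), LinearIndependent ℤ u ∧
      ∀ k, u k ∈ Mo v y ∧ u k ∈ wB M 1) →
    ∃ w : Fin m → (Fin (m + m) → ℤ), LinearIndependent ℤ w ∧
      ∀ k, w k ∈ Mo v (Pi.single i₀ 1) ∧ w k ∈ wB M (Real.exp (C * (1 + Real.log Q) ^ 2) / M i₀) := by
  obtain ⟨Cf, hCf1, hf⟩ := Ff m hm (e₀ + 1)
  set D : ℝ := ((m : ℝ) + 3) * 3 ^ (m + m) with hD
  have hm0 : (0 : ℝ) ≤ m := Nat.cast_nonneg m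
  have he0 : (0 : ℝ) ≤ e₀ := Nat.cast_nonneg e₀
  have h3 : (1 : ℝ) ≤ 3 ^ (m + m) := one_le_pow₀ (by norm_num)
  have hD3 : (3 : ℝ) ^ (m + m) ≤ D := by
    rw [hD]
    nlinarith
  have hDpos : 0 < D := by linarith
  refine ⟨Cf + D + e₀ + m + 2, by linarith, ?_⟩
  intro v M i₀ Q S hv hCQ hM hmax hlog hexp hS hNp hK hu
  set C : ℝ := Cf + D + e₀ + m + 2 with hC
  set u : ℝ := 1 + Real.log Q with hu'
  have hQ1 : 1 ≤ Q := by linarith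
  have hQ0 : 0 < Q := by linarith
  have hlQ : 0 ≤ Real.log Q := Real.log_nonneg hQ1
  have hu1 : 1 ≤ u := by linarith
  have huu : u ≤ u ^ 2 := by nlinarith
  have hu2 : 1 ≤ u ^ 2 := by linarith
  -- the condition `hbig`
  have hbig0 : ((m : ℝ) + 3) * (3 ^ (m + m) * Q ^ e₀) ≤ Real.exp (C * u ^ 2) := by
    have h1 : ((m : ℝ) + 3) * (3 ^ (m + m) * Q ^ e₀) = Real.exp (Real.log D + e₀ * Real.log Q) := by
      rw [Real.exp_add, Real.exp_log hDpos, mul_comm (e₀ : ℝ) (Real.log Q), Real.exp_mul,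
        Real.exp_log hQ0, Real.rpow_natCast, hD]
      ring
    rw [h1]
    refine Real.exp_le_exp.mpr ?_
    have h2 : Real.log D ≤ D := by
      have := Real.log_le_sub_one_of_pos hDpos
      linarith
    have h3' : (e₀ : ℝ) * Real.log Q ≤ e₀ * u ^ 2 :=
      mul_le_mul_of_nonneg_left (by linarith) he0
    have h4 : D ≤ D * u ^ 2 := by nlinarith
    have h5 : 0 ≤ (Cf + m + 2) * u ^ 2 := by positivity
    rw [hC]
    nlinarith
  have hbig : ((m : ℝ) + 3) * (3 ^ (m + m) * Q ^ e₀) ≤ M i₀ := hbig0.trans hexp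
  obtain ⟨A0, A1, G, hG, hMG, hHyp, hker⟩ := Fg hm hv M hM i₀ S hS hNp hu hK hbig
  set M0 : ℕ := ⌊M i₀⌋₊ with hM0
  have hMi1 : 1 ≤ M i₀ := hM i₀
  have hM0le : (M0 : ℝ) ≤ M i₀ := Nat.floor_le (by linarith)
  have hM0nat : 1 ≤ M0 := (Nat.one_le_floor_iff _).mpr hMi1
  have hM01 : (1 : ℝ) ≤ M0 := by exact_mod_cast hM0nat
  have hM0lt : M i₀ < M0 + 1 := Nat.lt_floor_add_one _
  have hM02 : M i₀ ≤ 2 * M0 := by linarith
  -- the product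
  have hprod : M i₀ ≤ ∏ i, M i := by
    rw [← Finset.mul_prod_erase Finset.univ M (Finset.mem_univ i₀)]
    have h1 : (1 : ℝ) ≤ ∏ i ∈ Finset.univ.erase i₀, M i := by
      have := Finset.prod_le_prod (s := Finset.univ.erase i₀) (f := fun _ => (1 : ℝ)) (g := M)
        (fun _ _ => zero_le_one) (fun i _ => hM i)
      rwa [Finset.prod_const_one] at this
    nlinarith
  have hlogM0 : Real.log M0 ≤ Q := by
    refine le_trans ?_ hlog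
    exact Real.log_le_log (by linarith) (hM0le.trans hprod)
  -- the large lower bound for M0
  have hexpf : Real.exp (Cf * u ^ 2) ≤ M0 := by
    have h1 : 2 * Real.exp (Cf * u ^ 2) ≤ Real.exp (C * u ^ 2) := by
      have h2 : Real.exp (Cf * u ^ 2 + u ^ 2) ≤ Real.exp (C * u ^ 2) := by
        refine Real.exp_le_exp.mpr ?_
        rw [hC]
        nlinarith [mul_nonneg (by positivity : (0 : ℝ) ≤ D + e₀ + m + 1) (by positivity : (0 : ℝ) ≤ u ^ 2)]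
      have h3 : (2 : ℝ) ≤ Real.exp (u ^ 2) := by
        have := Real.add_one_le_exp (u ^ 2)
        linarith
      rw [Real.exp_add] at h2
      nlinarith [Real.exp_pos (Cf * u ^ 2)]
    linarith
  -- the density of G
  have hMG' : (M0 : ℝ) ≤ Q ^ (e₀ + 1) * G.card := by
    have h1 : (3 : ℝ) ^ (m + m) ≤ Q := by linarith
    have h2 : 3 ^ (m + m) * Q ^ e₀ * (G.card : ℝ) ≤ Q * Q ^ e₀ * G.card := by
      have : (0 : ℝ) ≤ Q ^ e₀ * G.card := by positivity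
      nlinarith
    rw [pow_succ']
    linarith
  obtain ⟨γ, ℓ, hγ, hmi, hne, hbd⟩ := hf A0 A1 M M0 G Q (by linarith) hM hlog hexpf hlogM0 hG hMG' hHyp
  obtain ⟨w, hw, hwk⟩ := Fh hm A1 hγ hmi hne hM (M0 := (M0 : ℝ)) (X := Real.exp (Cf * u ^ 2)) hM01
    (fun i => (hmax i).trans hM02) (Real.exp_pos _).le hbd
  refine ⟨w, hw, fun k => ⟨hker _ (hwk k).1, ?_⟩⟩
  refine wB_mono (fun i => zero_le_one.trans (hM i)) ?_ (hwk k).2
  rw [div_le_div_iff₀ (by linarith) (by linarith)]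
  have h1 : (2 : ℝ) ^ (m + 1) * Real.exp (Cf * u ^ 2) ≤ Real.exp (C * u ^ 2) := by
    have h2 : (2 : ℝ) ^ (m + 1) ≤ Real.exp (((m : ℝ) + 1) * u ^ 2) := by
      have h3 : (2 : ℝ) ≤ Real.exp (u ^ 2) := by
        have := Real.add_one_le_exp (u ^ 2)
        linarith
      calc (2 : ℝ) ^ (m + 1) ≤ (Real.exp (u ^ 2)) ^ (m + 1) := pow_le_pow_left₀ (by norm_num) h3 _
        _ = Real.exp (((m : ℝ) + 1) * u ^ 2) := by
          rw [← Real.exp_nat_mul]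
          push_cast
          rfl
    calc (2 : ℝ) ^ (m + 1) * Real.exp (Cf * u ^ 2)
        ≤ Real.exp (((m : ℝ) + 1) * u ^ 2) * Real.exp (Cf * u ^ 2) :=
          mul_le_mul_of_nonneg_right h2 (Real.exp_pos _).le
      _ = Real.exp (((m : ℝ) + 1) * u ^ 2 + Cf * u ^ 2) := by rw [Real.exp_add]
      _ ≤ Real.exp (C * u ^ 2) := by
        refine Real.exp_le_exp.mpr ?_
        rw [hC]
        nlinarith [mul_nonneg (by positivity : (0 : ℝ) ≤ D + e₀ + 1) (by positivity : (0 : ℝ) ≤ u ^ 2)]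
  have h2 : (0 : ℝ) < Real.exp (Cf * u ^ 2) := Real.exp_pos _
  calc 2 ^ m * Real.exp (Cf * u ^ 2) * M i₀
      ≤ 2 ^ m * Real.exp (Cf * u ^ 2) * (2 * M0) :=
        mul_le_mul_of_nonneg_left hM02 (by positivity)
    _ = 2 ^ (m + 1) * Real.exp (Cf * u ^ 2) * M0 := by ring
    _ ≤ Real.exp (C * u ^ 2) * M0 := mul_le_mul_of_nonneg_right h1 (by linarith)

end Pool.Agent.SD
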