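import Pool.Agent.Lib.MP_6f2296_co.Mg.G003
import Pool.Agent.Lib.MP_6f2296_co.Mg.G006

/-!
# Uniform constants for all dimensions at most `d₀`, structure version
-/

set_option autoImplicit false

open scoped ComplexConjugate
open Finset

namespace Pool.Agent.SD

theorem CoreSU (d₀ : ℕ) : ∃ (a : ℕ) (C₁ : ℕ → ℝ) (C : ℝ), 1 ≤ a ∧ (∀ d, 1 ≤ C₁ d) ∧
    (∀ d, d ≤ d₀ → C₁ d ≤ C) ∧ 1 ≤ C ∧ ∀ d, d ≤ d₀ → ∀ (L : (Fin d → ℤ) →+ ℂ)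
    (N : Fin d → ℝ) (Q ν t : ℝ) (Θ : Finset ℂ), C ≤ Q → Antitone N → (∀ i, Q ^ a ≤ N i) →
    (∀ x ∈ wB N (Q ^ a), L x = 0 → x = 0) → Dirs Θ → Q ^ a ≤ ν →
    (∀ θ ∈ Θ, ν ≤ (cM N (Mt L θ) 1 : ℝ)) →
    (∀ θ ∈ Θ, ∃ w, L w ≠ 0 ∧ par (Complex.I * θ) (L w)) →
    (∏ i, N i) ≤ Q * ((Θ.card : ℝ) * ν ^ 2) →
    0 < t → t ≤ 1 → C₁ d * (∏ i, N i) ≤ W N t * ν ^ 2 →
    W N t * ν ^ 2 ≤ 2 ^ d * C₁ d * ∏ i, N i → (∀ i, t * N i ≤ (Q ^ 6)⁻¹ ∨ Q ^ 6 ≤ t * N i) →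
    Q ^ a * ν ^ 2 ≤ ∏ i, N i →
    (∀ x, L x = 0 → x = 0) ∧ RL.FieldStr (fun i => L (Pi.single i 1)) := by
  choose a C₁ C ha hC₁ hC H using CoreS
  set a' : ℕ := ∑ d ∈ range (d₀ + 1), a d with ha'
  set C' : ℝ := ∑ d ∈ range (d₀ + 1), (C d + C₁ d) with hC'
  have hle : ∀ d, d ≤ d₀ → C d + C₁ d ≤ C' := by
    intro d hd
    refine Finset.single_le_sum (f := fun d => C d + C₁ d) (fun i _ => ?_) (mem_range.2 (by omega))
    have := hC i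
    have := hC₁ i
    positivity
  have hale : ∀ d, d ≤ d₀ → a d ≤ a' := fun d hd =>
    Finset.single_le_sum (f := a) (fun i _ => Nat.zero_le _) (mem_range.2 (by omega))
  have hC'1 : 1 ≤ C' := by
    have := hle 0 (Nat.zero_le _)
    have := hC 0
    have := hC₁ 0
    linarith
  refine ⟨a', C₁, C', (ha 0).trans (hale 0 (Nat.zero_le _)), hC₁, fun d hd => ?_, hC'1, ?_⟩
  · have := hle d hd
    have := hC d
    linarith
  intro d hd L N Q ν t Θ hQ hA hN hk hΘ hν hc hp hV ht ht1 hW1 hW2 hgap hbig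
  have hCd : C d ≤ C' := by
    have := hle d hd
    have := hC₁ d
    linarith
  have hQ1 : 1 ≤ Q := hC'1.trans hQ
  have hpow : Q ^ a d ≤ Q ^ a' := pow_le_pow_right₀ hQ1 (hale d hd)
  have hN0 : ∀ i, 0 ≤ N i := fun i => le_trans (by positivity) (hN i)
  have hsub : wB N (Q ^ a d) ⊆ wB N (Q ^ a') := by
    intro x hx
    rw [mem_wB] at hx ⊢
    intro i
    exact (hx i).trans (mul_le_mul_of_nonneg_right hpow (hN0 i))
  exact H d L N Q ν t Θ (hCd.trans hQ) hA (fun i => hpow.trans (hN i))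
    (fun x hx => hk x (hsub hx)) hΘ (hpow.trans hν) hc hp hV ht ht1 hW1 hW2 hgap
    ((mul_le_mul_of_nonneg_right hpow (sq_nonneg _)).trans hbig)

end Pool.Agent.SD
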