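import Pool.Agent.Lib.MP_6f2296_co.Mg.G005
import Pool.Agent.Lib.MP_6f2296_co.Mg.G012

/-!
# TASK SD Ff: the rigidity argument, assembly (compare `RL/Rf.lean`)

PROOF.  `I = Icc (-M0) M0`, `W = |I| = 2 M0 + 1`, `g = |G|`, `u = 1 + log Q`, `n₀ = (2m)^m = card (Fin m → Fin (m+m))`, `J = (2m)! ∏ M i`; `J1 M f * J2 M f = J`.  `C` is large, depending on `m`, `e₀`.
1. `g ≥ M0/Q^e₀ ≥ exp (C u²)/Q^e₀` is large, in particular `g ≥ 4m + 4`.  Take `γ`, `P'` from `RdtW`, `ℓ f = (P' f).coeff m`; `mi A1 f = (mp A0 A1 f).coeff m = γ ℓ f` (`RL.coeff_mp`).  Some `ℓ f ≠ 0`: compare the coefficients of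
`X^m` in `comb`.
2. Choose `T₀ ≠ T₁` in `G`, `R` from `R3w`, `X = log R ≥ 0`, `E = ∑_{p ∣ R} log p/p`.  All `hh P' T ∣ R`, so `hh P' T ≥ 1`.  For `T ∈ G \ {T₀, T₁}`: `X ≤ m log (2 M0) + 2 log (hh P' T) + 2 log (n₀ J) ≤ B + 2 log (hh P' T)`,
`B = C_B Q` (`log M0 ≤ Q`, `log (∏ M i) ≤ Q`, `1 ≤ Q`).  Sum over `G \ {T₀, T₁}`: `(g - 2) X ≤ (g - 2) B + 2 ∑_{T ∈ I} log (hh P' T)`, and by `RL.R6`, `RL.R7` the last sum is at most `W (2 m² E) + m X`; `RL.R8`.  `F9` with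
`Lg = 3 C_B Q^(e₀+1)` (`W ≤ 3 M0 ≤ 3 Q^e₀ g`, `B ≤ Lg`): `X ≤ C₉ Lg² ≤ Q^e₁`, `e₁ = 2 e₀ + 3` (`Q ≥ C`).
3. Let `e₂ = e₁ + e₀ + 1`, `z = ⌈Q^e₂⌉₊`, `Q^e₂ ≤ z ≤ 2 Q^e₂`, `log z ≤ (e₂ + 1) u`, and `Y = exp (C_Y u²)` with `C_Y = 4 m (e₂ + 1)(4 m² (e₂ + 2) + e₀ + 4)`.  By `moment` (`fewCl_hh`) the number of `T ∈ I` with `Y ≤ hh P' T` is at
most `a + b + c`: `a = 2 m X (W/z + 1) ≤ 2 m Q^e₁ W/Q^e₂ + 2 m Q^e₁ ≤ 6 m g/Q + 2 m Q^e₁ ≤ g/6` (`W ≤ 3 Q^e₀ g`, `Q ≥ 72 m`, `g ≥ 24 m Q^e₁`); `b = W exp (-C_Y u²/(4 m log z)) exp (4 m² (1 + log z)) ≤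
3 Q^e₀ g exp (-(e₀ + 4) u) ≤ 3 e^(-4) g ≤ g/6` (`u²/log z ≥ u/(e₂ + 1)`; `exp (-(e₀+4) u) ≤ e^(-4) Q^(-e₀)`); `c = (Y z)^(m+1) ≤ exp ((m+1)(C_Y u² + (e₂ + 1) u)) ≤ g/6` (`g ≥ exp (C u²) Q^(-e₀)`).
So `G' = {T ∈ G | hh P' T < Y}` has at least `g/2` elements.
4. For `T ∈ G'`: `|(P' f)(T)| ≤ Y J1 M f`.  Let `s₀ = (|G'| - 1)/m` (floor), `m s₀ + 1 ≤ |G'|`, `s₀ ≥ g/(4m) ≥ M0/(4 m Q^e₀)` (as in `RL/Rf.lean`).  `RL.R10`: `|ℓ f| s₀^m ≤ 2^m Y J1 M f`, so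
`|ℓ f| (∏ k, M (f k)) M0^m ≤ (8 m Q^e₀)^m Y (2m)! ∏ M i ≤ exp (C u²) ∏ M i`.
-/

set_option autoImplicit false

open Finset Polynomial

namespace Pool.Agent.SD

open RL

/-- The size of `G`. -/
private theorem Ff_g {e₀ : ℕ} {C D Q M0 g : ℝ} (hQ : 1 ≤ Q) (hD : D + e₀ ≤ C)
    (h1 : Real.exp (C * (1 + Real.log Q) ^ 2) ≤ M0) (h2 : M0 ≤ Q ^ e₀ * g) (hg : 0 ≤ g) :
    Real.exp (D * (1 + Real.log Q) ^ 2) ≤ g := by
  have hQ0 : 0 < Q := by linarith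
  have hl : 0 ≤ Real.log Q := Real.log_nonneg hQ
  have hu : Real.log Q ≤ (1 + Real.log Q) ^ 2 := by nlinarith
  have h3 : Q ^ e₀ ≤ Real.exp (e₀ * (1 + Real.log Q) ^ 2) := by
    have : Q ^ e₀ = Real.exp (e₀ * Real.log Q) := by
      rw [Real.exp_nat_mul, Real.exp_log hQ0]
    rw [this]
    exact Real.exp_le_exp.2 (mul_le_mul_of_nonneg_left hu (Nat.cast_nonneg _))
  have h4 : Real.exp (e₀ * (1 + Real.log Q) ^ 2) * Real.exp (D * (1 + Real.log Q) ^ 2) ≤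
      Real.exp (e₀ * (1 + Real.log Q) ^ 2) * g := by
    rw [← Real.exp_add]
    calc Real.exp (e₀ * (1 + Real.log Q) ^ 2 + D * (1 + Real.log Q) ^ 2)
        ≤ Real.exp (C * (1 + Real.log Q) ^ 2) := by
          refine Real.exp_le_exp.2 ?_
          have := mul_le_mul_of_nonneg_right hD (sq_nonneg (1 + Real.log Q))
          linarith
      _ ≤ M0 := h1
      _ ≤ Q ^ e₀ * g := h2
      _ ≤ _ := mul_le_mul_of_nonneg_right h3 hg
  exact le_of_mul_le_mul_left h4 (Real.exp_pos _)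

/-- The constant for `B`. -/
private noncomputable def Ff_CB (m : ℕ) : ℝ :=
  2 * m + 2 + 2 * (Real.log (Fintype.card (Fin m → Fin (m + m))) + Real.log ((m + m).factorial))

private theorem Ff_n0 (m : ℕ) (hm : 1 ≤ m) : 1 ≤ Fintype.card (Fin m → Fin (m + m)) := by
  rw [Fintype.card_fun, Fintype.card_fin, Fintype.card_fin]
  exact Nat.one_le_pow _ _ (by omega)

private theorem Ff_CB_one (m : ℕ) (hm : 1 ≤ m) : 1 ≤ Ff_CB m := by
  have h1 : (1 : ℝ) ≤ m := by exact_mod_cast hm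
  have h2 : 0 ≤ Real.log (Fintype.card (Fin m → Fin (m + m))) :=
    Real.log_nonneg (by exact_mod_cast Ff_n0 m hm)
  have h3 : 0 ≤ Real.log ((m + m).factorial) :=
    Real.log_nonneg (by exact_mod_cast Nat.one_le_iff_ne_zero.2 (Nat.factorial_ne_zero _))
  unfold Ff_CB
  linarith

/-- The bound for `B`. -/
private theorem Ff_B (m : ℕ) (hm : 1 ≤ m) (M0 : ℕ) (hM0 : 1 ≤ M0) (S Q : ℝ) (hQ : 1 ≤ Q) (hS : 1 ≤ S)
    (hSQ : Real.log S ≤ Q) (hMQ : Real.log M0 ≤ Q) :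
    m * Real.log (2 * M0) + 2 * Real.log ((Fintype.card (Fin m → Fin (m + m)) : ℝ) *
      ((m + m).factorial * S)) ≤ Ff_CB m * Q := by
  have hm0 : (0 : ℝ) ≤ m := Nat.cast_nonneg m
  have hM1 : (0 : ℝ) < M0 := by exact_mod_cast hM0
  have hn : (1 : ℝ) ≤ (Fintype.card (Fin m → Fin (m + m)) : ℝ) := by exact_mod_cast Ff_n0 m hm
  have hf : (1 : ℝ) ≤ ((m + m).factorial : ℝ) := by
    exact_mod_cast Nat.one_le_iff_ne_zero.2 (Nat.factorial_ne_zero _)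
  have hlog2 : Real.log (2 * M0) ≤ 2 * Q := by
    rw [Real.log_mul (by norm_num) hM1.ne']
    have := Real.log_two_lt_d9
    linarith
  have hJ : Real.log ((Fintype.card (Fin m → Fin (m + m)) : ℝ) * ((m + m).factorial * S)) =
      Real.log (Fintype.card (Fin m → Fin (m + m))) + Real.log ((m + m).factorial) +
        Real.log S := by
    rw [Real.log_mul (by positivity) (by positivity), Real.log_mul (by positivity) (by positivity)]
    ring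
  have hn' := Real.log_nonneg hn
  have hf' := Real.log_nonneg hf
  have h2 := mul_le_mul_of_nonneg_left hlog2 hm0
  have h3 := mul_le_mul_of_nonneg_left hQ hn'
  have h4 := mul_le_mul_of_nonneg_left hQ hf'
  rw [hJ]
  unfold Ff_CB
  nlinarith

/-- Powers of `Q`. -/
private theorem Ff_pow {Q : ℝ} (hQ : 1 ≤ Q) (e : ℕ) : Q ^ e = Real.exp (e * Real.log Q) := by
  rw [Real.exp_nat_mul, Real.exp_log (by linarith)]

/-- The number of the bad integers. -/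
private theorem Ff_count (m e₀ e₁ e₂ : ℕ) (hm : 1 ≤ m) (he : e₂ = e₁ + e₀ + 1) (CY : ℝ)
    (hCY : CY = 4 * m * (e₂ + 1) * (4 * (m : ℝ) ^ 2 * (e₂ + 2) + e₀ + 4)) (Q X g : ℝ) (M0 z : ℕ)
    (hQ : 72 * m ≤ Q) (hX : X ≤ Q ^ e₁) (hM0 : 1 ≤ M0)
    (hMg : (M0 : ℝ) ≤ Q ^ e₀ * g) (hz1 : Q ^ e₂ ≤ z) (hz2 : (z : ℝ) ≤ 2 * Q ^ e₂)
    (hg1 : 24 * m * Q ^ e₁ ≤ g)
    (hg2 : 6 * Real.exp ((m + 1) * (CY + e₂ + 1) * (1 + Real.log Q) ^ 2) ≤ g) :
    2 * m * X * ((2 * M0 + 1) / z + 1) +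
      (2 * M0 + 1) * ((Real.exp (CY * (1 + Real.log Q) ^ 2)) ^ (-(1 / (4 * m * Real.log z))) *
        Real.exp (4 * (m : ℝ) ^ 2 * (1 + Real.log z))) +
      (Real.exp (CY * (1 + Real.log Q) ^ 2) * z) ^ (m + 1) ≤ g / 2 := by
  have hm1 : (1 : ℝ) ≤ m := by exact_mod_cast hm
  have hM1 : (1 : ℝ) ≤ M0 := by exact_mod_cast hM0
  have hQ1 : 72 ≤ Q := by linarith
  have hQ0 : 0 < Q := by linarith
  have hl : 0 ≤ Real.log Q := Real.log_nonneg (by linarith)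
  have hW : (2 * M0 + 1 : ℝ) ≤ 3 * (Q ^ e₀ * g) := by linarith
  have hg0 : 0 ≤ g := le_trans (by positivity) hg2
  have hz0 : (0 : ℝ) < z := lt_of_lt_of_le (pow_pos hQ0 _) hz1
  have hz3 : 2 ≤ (z : ℝ) := by
    refine le_trans ?_ hz1
    have : Q ^ 1 ≤ Q ^ e₂ := pow_le_pow_right₀ (by linarith) (by omega)
    rw [pow_one] at this
    linarith
  have hlz : 0 < Real.log z := Real.log_pos (by linarith)
  -- the logarithm of `z`
  have hlz2 : Real.log z ≤ (e₂ + 1) * (1 + Real.log Q) := by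
    have h1 := Real.log_le_log hz0 hz2
    rw [Real.log_mul (by norm_num) (pow_pos hQ0 _).ne', Real.log_pow] at h1
    have h2 := Real.log_two_lt_d9
    have h3 : (0 : ℝ) ≤ e₂ := Nat.cast_nonneg _
    nlinarith
  have hu1 : 1 ≤ 1 + Real.log Q := by linarith
  obtain ⟨u, hu⟩ : ∃ u, u = 1 + Real.log Q := ⟨_, rfl⟩
  rw [← hu] at hg2 hlz2 hu1 ⊢
  -- first term
  have ha : 2 * m * X * ((2 * M0 + 1) / z + 1) ≤ g / 6 := by
    have h1 : (2 * M0 + 1 : ℝ) / z ≤ 3 * (Q ^ e₀ * g) / Q ^ e₂ := by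
      rw [div_le_div_iff₀ hz0 (pow_pos hQ0 _)]
      exact mul_le_mul hW hz1 (by positivity) (by positivity)
    have h2 : 2 * m * X * ((2 * M0 + 1) / z + 1) ≤
        2 * m * Q ^ e₁ * (3 * (Q ^ e₀ * g) / Q ^ e₂ + 1) :=
      mul_le_mul (mul_le_mul_of_nonneg_left hX (by positivity)) (by linarith) (by positivity)
        (by positivity)
    have h3 : 2 * m * Q ^ e₁ * (3 * (Q ^ e₀ * g) / Q ^ e₂ + 1) =
        6 * m * g / Q + 2 * m * Q ^ e₁ := by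
      rw [he]
      field_simp
      ring
    have h4 : 6 * m * g / Q ≤ g / 12 := by
      rw [div_le_div_iff₀ hQ0 (by norm_num)]
      nlinarith
    linarith
  -- second term
  have hb : (2 * M0 + 1) * ((Real.exp (CY * u ^ 2)) ^ (-(1 / (4 * m * Real.log z))) *
      Real.exp (4 * (m : ℝ) ^ 2 * (1 + Real.log z))) ≤ g / 6 := by
    have hD : 0 < 4 * m * Real.log z := by positivity
    have h1 : (Real.exp (CY * u ^ 2)) ^ (-(1 / (4 * m * Real.log z))) *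
        Real.exp (4 * (m : ℝ) ^ 2 * (1 + Real.log z)) ≤ Real.exp (-((e₀ + 4) * u)) := by
      rw [← Real.exp_mul, ← Real.exp_add]
      refine Real.exp_le_exp.2 ?_
      have h2 : (4 * (m : ℝ) ^ 2 * (e₂ + 2) + e₀ + 4) * u ≤ CY * u ^ 2 * (1 / (4 * m * Real.log z)) := by
        rw [mul_one_div, le_div_iff₀ hD, hCY]
        have h3 : (0 : ℝ) ≤ 4 * (m : ℝ) ^ 2 * (e₂ + 2) + e₀ + 4 := by positivity
        have h4 : 4 * m * Real.log z ≤ 4 * m * ((e₂ + 1) * u) :=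
          mul_le_mul_of_nonneg_left hlz2 (by positivity)
        have h5 := mul_le_mul_of_nonneg_left h4 (mul_nonneg h3 (by linarith : 0 ≤ u))
        refine h5.trans (le_of_eq ?_)
        ring
      have h6 : 4 * (m : ℝ) ^ 2 * (1 + Real.log z) ≤ 4 * (m : ℝ) ^ 2 * ((e₂ + 2) * u) := by
        refine mul_le_mul_of_nonneg_left ?_ (by positivity)
        linarith
      linarith
    have h2 : Real.exp (-((e₀ + 4) * u)) * Q ^ e₀ ≤ 1 / 18 := by
      have h3 : Q ^ e₀ ≤ Real.exp (e₀ * u) := by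
        rw [Ff_pow (by linarith) e₀]
        refine Real.exp_le_exp.2 (mul_le_mul_of_nonneg_left ?_ (Nat.cast_nonneg _))
        linarith
      have h4 : Real.exp (-((e₀ + 4) * u)) * Q ^ e₀ ≤ Real.exp (-4) := by
        refine (mul_le_mul_of_nonneg_left h3 (Real.exp_pos _).le).trans ?_
        rw [← Real.exp_add]
        refine Real.exp_le_exp.2 ?_
        linarith
      refine h4.trans ?_
      rw [Real.exp_neg, one_div]
      refine inv_anti₀ (by norm_num) ?_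
      have h5 : Real.exp 4 = Real.exp 1 ^ 4 := by
        rw [← Real.exp_nat_mul]
        norm_num
      rw [h5]
      have h6 := Real.exp_one_gt_d9
      have h7 : (2.7 : ℝ) ^ 4 ≤ Real.exp 1 ^ 4 := pow_le_pow_left₀ (by norm_num) (by linarith) 4
      refine le_trans ?_ h7
      norm_num
    have h3 : (2 * M0 + 1) * ((Real.exp (CY * u ^ 2)) ^ (-(1 / (4 * m * Real.log z))) *
        Real.exp (4 * (m : ℝ) ^ 2 * (1 + Real.log z))) ≤
        3 * (Q ^ e₀ * g) * Real.exp (-((e₀ + 4) * u)) :=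
      mul_le_mul hW h1 (by positivity) (by positivity)
    refine h3.trans ?_
    have h4 := mul_le_mul_of_nonneg_left h2 (show 0 ≤ 3 * g by positivity)
    calc 3 * (Q ^ e₀ * g) * Real.exp (-((e₀ + 4) * u))
        = 3 * g * (Real.exp (-((e₀ + 4) * u)) * Q ^ e₀) := by ring
      _ ≤ 3 * g * (1 / 18) := h4
      _ = g / 6 := by ring
  -- third term
  have hc : (Real.exp (CY * u ^ 2) * z) ^ (m + 1) ≤ g / 6 := by
    have h1 : (z : ℝ) ≤ Real.exp ((e₂ + 1) * u) := by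
      rw [← Real.log_le_iff_le_exp hz0]
      exact hlz2
    have h2 : Real.exp (CY * u ^ 2) * z ≤ Real.exp ((CY + e₂ + 1) * u ^ 2) := by
      refine (mul_le_mul_of_nonneg_left h1 (Real.exp_pos _).le).trans ?_
      rw [← Real.exp_add]
      refine Real.exp_le_exp.2 ?_
      have h3 : u ≤ u ^ 2 := by nlinarith
      have h4 := mul_le_mul_of_nonneg_left h3 (show (0 : ℝ) ≤ e₂ + 1 by positivity)
      linarith
    have h3 : (Real.exp (CY * u ^ 2) * z) ^ (m + 1) ≤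
        Real.exp ((m + 1) * (CY + e₂ + 1) * u ^ 2) := by
      refine (pow_le_pow_left₀ (by positivity) h2 (m + 1)).trans (le_of_eq ?_)
      rw [← Real.exp_nat_mul]
      congr 1
      push_cast
      ring
    linarith
  linarith

/-- The last estimate. -/
private theorem Ff_last (m e₀ : ℕ) (hm : 1 ≤ m) (C CY Q : ℝ) (hQ : 1 ≤ Q)
    (hC : CY + (8 * m * m + m * e₀ + Real.log ((m + m).factorial)) ≤ C) (S P x s₀ M0 : ℝ)
    (hS : 0 ≤ S) (hP : 0 < P) (hM0 : 0 ≤ M0) (hx : 0 ≤ x) (hs : M0 / (4 * m * Q ^ e₀) ≤ s₀)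
    (h : x * s₀ ^ m ≤ 2 ^ m * (Real.exp (CY * (1 + Real.log Q) ^ 2) *
      ((m + m).factorial * S / P))) :
    x * P * M0 ^ m ≤ Real.exp (C * (1 + Real.log Q) ^ 2) * S := by
  have hm1 : (1 : ℝ) ≤ m := by exact_mod_cast hm
  have hQ0 : 0 < Q := by linarith
  have hf : (1 : ℝ) ≤ ((m + m).factorial : ℝ) := by
    exact_mod_cast Nat.one_le_iff_ne_zero.2 (Nat.factorial_ne_zero _)
  have hl : 0 ≤ Real.log Q := Real.log_nonneg hQ
  obtain ⟨F, hF⟩ : ∃ F : ℝ, F = ((m + m).factorial : ℝ) := ⟨_, rfl⟩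
  rw [← hF] at hf h hC
  obtain ⟨V, hV⟩ : ∃ V : ℝ, V = 4 * m * Q ^ e₀ := ⟨_, rfl⟩
  have hV0 : 0 < V := by
    rw [hV]
    positivity
  rw [← hV] at hs
  obtain ⟨u, hu⟩ : ∃ u, u = 1 + Real.log Q := ⟨_, rfl⟩
  have hu1 : 1 ≤ u := by linarith
  rw [← hu] at h ⊢
  have h1 : x * (M0 / V) ^ m ≤ 2 ^ m * (Real.exp (CY * u ^ 2) * (F * S / P)) :=
    (mul_le_mul_of_nonneg_left (pow_le_pow_left₀ (by positivity) hs m) hx).trans h
  have h2 := mul_le_mul_of_nonneg_right h1 (show 0 ≤ V ^ m * P by positivity)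
  have h3 : x * (M0 / V) ^ m * (V ^ m * P) = x * P * M0 ^ m := by
    rw [div_pow]
    field_simp
  have h4 : 2 ^ m * (Real.exp (CY * u ^ 2) * (F * S / P)) * (V ^ m * P) =
      (2 * V) ^ m * F * Real.exp (CY * u ^ 2) * S := by
    rw [mul_pow]
    field_simp
  rw [h3, h4] at h2
  refine h2.trans (mul_le_mul_of_nonneg_right ?_ hS)
  have h5 : 2 * V ≤ Real.exp (8 * m + e₀ * u) := by
    rw [Real.exp_add]
    have e1 : (8 : ℝ) * m ≤ Real.exp (8 * m) := by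
      have := Real.add_one_le_exp (8 * (m : ℝ))
      linarith
    have e2 : Q ^ e₀ ≤ Real.exp (e₀ * u) := by
      rw [Ff_pow hQ e₀]
      refine Real.exp_le_exp.2 (mul_le_mul_of_nonneg_left ?_ (Nat.cast_nonneg _))
      linarith
    have e3 := mul_le_mul e1 e2 (by positivity) (by positivity)
    rw [hV]
    linarith
  have h6 : (2 * V) ^ m ≤ Real.exp (m * (8 * m + e₀ * u)) := by
    rw [Real.exp_nat_mul]
    exact pow_le_pow_left₀ (by positivity) h5 m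
  have h7 : F = Real.exp (Real.log F) := (Real.exp_log (by linarith)).symm
  have h8 : (2 * V) ^ m * F * Real.exp (CY * u ^ 2) ≤
      Real.exp (m * (8 * m + e₀ * u)) * Real.exp (Real.log F) * Real.exp (CY * u ^ 2) := by
    rw [← h7]
    exact mul_le_mul_of_nonneg_right (mul_le_mul_of_nonneg_right h6 (by linarith))
      (Real.exp_pos _).le
  refine h8.trans ?_
  rw [← Real.exp_add, ← Real.exp_add]
  refine Real.exp_le_exp.2 ?_
  have hlF : 0 ≤ Real.log F := Real.log_nonneg hf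
  have hu2 : 1 ≤ u ^ 2 := by nlinarith
  have hu3 : u ≤ u ^ 2 := by nlinarith
  have h9 := mul_le_mul_of_nonneg_right hC (sq_nonneg u)
  have e1 := mul_le_mul_of_nonneg_left hu2 (show (0 : ℝ) ≤ 8 * m * m by positivity)
  have e2 := mul_le_mul_of_nonneg_left hu3 (show (0 : ℝ) ≤ m * e₀ by positivity)
  have e3 := mul_le_mul_of_nonneg_left hu2 hlF
  linarith

theorem Ff (m : ℕ) (hm : 1 ≤ m) (e₀ : ℕ) : ∃ C : ℝ, 1 ≤ C ∧
    ∀ (A0 A1 : Matrix (Fin m) (Fin (m + m)) ℤ) (M : Fin (m + m) → ℝ) (M0 : ℕ) (G : Finset ℤ) (Q : ℝ),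
      C ≤ Q → (∀ i, 1 ≤ M i) → Real.log (∏ i, M i) ≤ Q → Real.exp (C * (1 + Real.log Q) ^ 2) ≤ M0 →
      Real.log M0 ≤ Q → G ⊆ Finset.Icc (-(M0 : ℤ)) M0 → (M0 : ℝ) ≤ Q ^ e₀ * G.card →
      (∀ T ∈ G, HypW A0 A1 M T) →
      ∃ (γ : ℕ) (ℓ : (Fin m → Fin (m + m)) → ℤ), 1 ≤ γ ∧ (∀ f, mi A1 f = γ * ℓ f) ∧
        (∃ f, ℓ f ≠ 0) ∧
        ∀ f, |(ℓ f : ℝ)| * (∏ k, M (f k)) * (M0 : ℝ) ^ m ≤
          Real.exp (C * (1 + Real.log Q) ^ 2) * ∏ i, M i := by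
  classical
  have hCB := Ff_CB_one m hm
  obtain ⟨C9, hC9, hF9⟩ := F9 m
  have hm1 : (1 : ℝ) ≤ m := by exact_mod_cast hm
  have he0 : (0 : ℝ) ≤ e₀ := Nat.cast_nonneg _
  have hlf : 0 ≤ Real.log ((m + m).factorial) :=
    Real.log_nonneg (by exact_mod_cast Nat.one_le_iff_ne_zero.2 (Nat.factorial_ne_zero _))
  obtain ⟨e₁, he₁⟩ : ∃ e₁ : ℕ, e₁ = 2 * e₀ + 3 := ⟨_, rfl⟩
  obtain ⟨e₂, he₂⟩ : ∃ e₂ : ℕ, e₂ = e₁ + e₀ + 1 := ⟨_, rfl⟩
  obtain ⟨CY, hCY⟩ : ∃ CY : ℝ, CY = 4 * m * (e₂ + 1) * (4 * (m : ℝ) ^ 2 * (e₂ + 2) + e₀ + 4) :=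
    ⟨_, rfl⟩
  have hCY0 : 0 < CY := by
    rw [hCY]
    positivity
  obtain ⟨K1, hK1⟩ : ∃ K1 : ℝ, K1 = 9 * C9 * Ff_CB m ^ 2 := ⟨_, rfl⟩
  obtain ⟨K2, hK2⟩ : ∃ K2 : ℝ, K2 = (m + 1) * (CY + e₂ + 1) + 2 := ⟨_, rfl⟩
  obtain ⟨K3, hK3⟩ : ∃ K3 : ℝ, K3 = 8 * m * m + m * e₀ + Real.log ((m + m).factorial) := ⟨_, rfl⟩
  have hK1' : 0 ≤ K1 := by
    rw [hK1]
    have : 0 ≤ C9 := by linarith
    positivity
  have hK2' : 0 ≤ K2 := by
    rw [hK2]
    positivity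
  have hK3' : 0 ≤ K3 := by
    rw [hK3]
    positivity
  refine ⟨K1 + K2 + K3 + CY + 72 * m + e₀ + e₁ + 3, ?_, ?_⟩
  · have : (0 : ℝ) ≤ e₁ := Nat.cast_nonneg _
    linarith
  intro A0 A1 M M0 G Q hCQ hM hMQ hexp hM0Q hGI hMG hHyp
  have he1 : (0 : ℝ) ≤ e₁ := Nat.cast_nonneg _
  obtain ⟨C0, hC0⟩ : ∃ C0 : ℝ, C0 = K1 + K2 + K3 + CY + 72 * m + e₀ + e₁ + 3 := ⟨_, rfl⟩
  rw [← hC0] at hCQ hexp ⊢
  have hQ72 : 72 * m ≤ Q := by linarith
  have hQK : K1 ≤ Q := by linarith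
  have hQ1 : 1 ≤ Q := by linarith
  have hQ0 : 0 < Q := by linarith
  have hl : 0 ≤ Real.log Q := Real.log_nonneg hQ1
  have hM0r : (1 : ℝ) ≤ M0 := by
    refine le_trans ?_ hexp
    rw [Real.one_le_exp_iff]
    have : 0 ≤ C0 := by linarith
    positivity
  have hM01 : 1 ≤ M0 := by exact_mod_cast hM0r
  have hg0 : (0 : ℝ) ≤ G.card := Nat.cast_nonneg _
  have hu2 : 1 ≤ (1 + Real.log Q) ^ 2 := by nlinarith
  have hu3 : Real.log Q ≤ (1 + Real.log Q) ^ 2 := by nlinarith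
  -- the size of `G`
  have hg4 : 4 * (m : ℝ) + 4 ≤ G.card := by
    have h1 := Ff_g (D := 4 * m + 3) hQ1 (by linarith) hexp hMG hg0
    have h2 := Real.add_one_le_exp ((4 * (m : ℝ) + 3) * (1 + Real.log Q) ^ 2)
    have h3 := mul_le_mul_of_nonneg_left hu2 (show (0 : ℝ) ≤ 4 * m + 3 by positivity)
    linarith
  have hg24 : 24 * m * Q ^ e₁ ≤ G.card := by
    have h1 := Ff_g (D := 24 * m + e₁) hQ1 (by linarith) hexp hMG hg0
    refine le_trans ?_ h1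
    rw [Ff_pow hQ1 e₁, add_mul, Real.exp_add]
    have h2 : 24 * (m : ℝ) ≤ Real.exp (24 * m * (1 + Real.log Q) ^ 2) := by
      have e1 := Real.add_one_le_exp (24 * (m : ℝ) * (1 + Real.log Q) ^ 2)
      have e2 := mul_le_mul_of_nonneg_left hu2 (show (0 : ℝ) ≤ 24 * m by positivity)
      linarith
    have h3 : Real.exp (e₁ * Real.log Q) ≤ Real.exp (e₁ * (1 + Real.log Q) ^ 2) :=
      Real.exp_le_exp.2 (mul_le_mul_of_nonneg_left hu3 he1)
    exact mul_le_mul h2 h3 (Real.exp_pos _).le (Real.exp_pos _).le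
  have hg6 : 6 * Real.exp ((m + 1) * (CY + e₂ + 1) * (1 + Real.log Q) ^ 2) ≤ G.card := by
    have h1 := Ff_g (D := K2) hQ1 (by linarith) hexp hMG hg0
    refine le_trans ?_ h1
    rw [hK2, add_mul ((m + 1) * (CY + e₂ + 1) : ℝ) 2, Real.exp_add, mul_comm (6 : ℝ)]
    refine mul_le_mul_of_nonneg_left ?_ (Real.exp_pos _).le
    have h2 : Real.exp 2 ≤ Real.exp (2 * (1 + Real.log Q) ^ 2) := Real.exp_le_exp.2 (by linarith)
    refine le_trans ?_ h2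
    have h5 : Real.exp 2 = Real.exp 1 ^ 2 := by
      rw [← Real.exp_nat_mul]
      norm_num
    rw [h5]
    have h6 := Real.exp_one_gt_d9
    nlinarith
  have hgN : 4 * m + 4 ≤ G.card := by exact_mod_cast hg4
  have hGne : G.Nonempty := Finset.card_pos.1 (by omega)
  have hMpos : ∀ i, 0 < M i := fun i => lt_of_lt_of_le one_pos (hM i)
  obtain ⟨γ, P', hγ, hP', hD⟩ := RdtW A0 A1 hMpos hGne hHyp
  refine ⟨γ, fun f => (P' f).coeff m, hγ, ?_, ?_, ?_⟩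
  · intro f
    rw [← coeff_mp A0 A1 f, hP', coeff_C_mul]
  · obtain ⟨T, hT⟩ := hGne
    obtain ⟨ρ, c, hρ, -, hc⟩ := hD.comb T hT
    by_contra hcon
    push Not at hcon
    apply hρ
    have h1 := congrArg (fun q : ℤ[X] => q.coeff m) hc
    have hmon : ((X - C T : ℤ[X]) ^ m).coeff m = 1 := by
      have h2 := ((monic_X_sub_C T).pow m).coeff_natDegree
      rwa [(monic_X_sub_C T).natDegree_pow, natDegree_X_sub_C, mul_one] at h2
    simp only [finsetSum_coeff, coeff_C_mul, hcon, mul_zero, Finset.sum_const_zero, hmon,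
      mul_one] at h1
    exact h1.symm
  -- the products
  obtain ⟨S, hS⟩ : ∃ S : ℝ, S = ∏ i, M i := ⟨_, rfl⟩
  rw [← hS] at hMQ ⊢
  have hS1 : 1 ≤ S := by
    rw [hS]
    calc (1 : ℝ) = ∏ _i : Fin (m + m), (1 : ℝ) := by simp
      _ ≤ ∏ i, M i := Finset.prod_le_prod (fun _ _ => zero_le_one) fun i _ => hM i
  have hPf : ∀ f : Fin m → Fin (m + m), 0 < ∏ k, M (f k) := fun f =>
    Finset.prod_pos fun k _ => hMpos _
  have hJ12 : ∀ f, J1 M f * J2 M f ≤ ((m + m).factorial * S : ℝ) := by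
    intro f
    unfold J1 J2
    rw [← hS, div_mul_cancel₀ _ (hPf f).ne']
  -- two elements
  obtain ⟨T₀, hT₀, T₁, hT₁, h01⟩ := Finset.one_lt_card.1 (show 1 < G.card by omega)
  obtain ⟨R, hR, hdiv, hRb⟩ := R3w hD hJ12 hT₀ hT₁ h01
  have hhpos : ∀ T, 1 ≤ hh P' T := fun T =>
    Nat.one_le_iff_ne_zero.2 fun h => hR (Nat.eq_zero_of_zero_dvd (h ▸ hdiv T))
  have hlog : ∀ T, 0 ≤ Real.log (hh P' T) := fun T => Real.log_nonneg (by exact_mod_cast hhpos T)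
  have hX0 : 0 ≤ Real.log R :=
    Real.log_nonneg (by exact_mod_cast Nat.one_le_iff_ne_zero.2 hR)
  have hE0 : 0 ≤ ∑ p ∈ R.primeFactors, Real.log p / p :=
    Finset.sum_nonneg fun p _ => div_nonneg (Real.log_natCast_nonneg p) (Nat.cast_nonneg p)
  have hI : (Finset.Icc (-(M0 : ℤ)) M0).card = 2 * M0 + 1 := by
    rw [Int.card_Icc]
    omega
  -- the sum of the logarithms
  have hSm := R7 hm (Finset.Icc (-(M0 : ℤ)) M0) (hh P') hR (fun T _ => hdiv T)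
    (fun p a b hp hb hab => by
      rw [hI]
      exact R6 hD.prim hD.deg hp hb hab M0)
  rw [hI] at hSm
  push_cast at hSm
  obtain ⟨Sg, hSg⟩ : ∃ Sg, Sg = ∑ T ∈ Finset.Icc (-(M0 : ℤ)) M0, Real.log (hh P' T) := ⟨_, rfl⟩
  rw [← hSg] at hSm
  obtain ⟨J, hJ⟩ : ∃ J : ℝ, J = (Fintype.card (Fin m → Fin (m + m)) : ℝ) *
      ((m + m).factorial * S) := ⟨_, rfl⟩
  have hJ0 : 0 < J := by
    rw [hJ]
    have e1 : (0 : ℝ) < (Fintype.card (Fin m → Fin (m + m)) : ℝ) := by exact_mod_cast Ff_n0 m hm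
    have e3 : (0 : ℝ) < ((m + m).factorial : ℝ) := by exact_mod_cast Nat.factorial_pos _
    positivity
  have hB := Ff_B m hm M0 hM01 S Q hQ1 hS1 hMQ hM0Q
  rw [← hJ] at hB
  have hpt : ∀ T ∈ (G.erase T₀).erase T₁,
      Real.log R ≤ (m * Real.log (2 * M0) + 2 * Real.log J) + 2 * Real.log (hh P' T) := by
    intro T hT
    rw [Finset.mem_erase, Finset.mem_erase] at hT
    have h1 := hRb T hT.2.2 hT.2.1 hT.1
    rw [← hJ] at h1
    have hT01 : (1 : ℝ) ≤ |((T₀ - T₁ : ℤ) : ℝ)| := by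
      have : 1 ≤ |T₀ - T₁| := Int.one_le_abs (sub_ne_zero.2 h01)
      rw [← Int.cast_abs]
      exact_mod_cast this
    have hT2M : |((T₀ - T₁ : ℤ) : ℝ)| ≤ 2 * M0 := by
      have e1 := Finset.mem_Icc.1 (hGI hT₀)
      have e2 := Finset.mem_Icc.1 (hGI hT₁)
      have : |T₀ - T₁| ≤ 2 * (M0 : ℤ) := by
        rw [abs_le]
        constructor <;> linarith [e1.1, e1.2, e2.1, e2.2]
      rw [← Int.cast_abs]
      exact_mod_cast this
    have hh0 : (0 : ℝ) < hh P' T := by exact_mod_cast hhpos T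
    have hR0 : (0 : ℝ) < R := by exact_mod_cast Nat.pos_of_ne_zero hR
    have h2 := Real.log_le_log hR0 h1
    rw [Real.log_mul (by positivity) (by positivity), Real.log_pow, Real.log_pow,
      Real.log_mul hh0.ne' hJ0.ne'] at h2
    have h3 := mul_le_mul_of_nonneg_left (Real.log_le_log (by linarith) hT2M)
      (Nat.cast_nonneg (α := ℝ) m)
    rw [Nat.cast_ofNat] at h2
    linarith
  have hcard : (((G.erase T₀).erase T₁).card : ℝ) = G.card - 2 := by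
    have e1 : T₁ ∈ G.erase T₀ := Finset.mem_erase.2 ⟨fun h => h01 h.symm, hT₁⟩
    have e2 := Finset.card_erase_add_one e1
    have e3 := Finset.card_erase_add_one hT₀
    have e4 : ((G.erase T₀).erase T₁).card + 2 = G.card := by omega
    rw [← e4]
    push_cast
    ring
  have hsum : (G.card - 2 : ℝ) * Real.log R ≤
      (G.card - 2) * (m * Real.log (2 * M0) + 2 * Real.log J) + 2 * Sg := by
    have h1 := Finset.sum_le_sum hpt
    rw [Finset.sum_const, Finset.sum_add_distrib, Finset.sum_const, nsmul_eq_mul, nsmul_eq_mul, hcard,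
      ← Finset.mul_sum] at h1
    have h2 : ∑ T ∈ (G.erase T₀).erase T₁, Real.log (hh P' T) ≤ Sg := by
      rw [hSg]
      refine Finset.sum_le_sum_of_subset_of_nonneg ?_ fun T _ _ => hlog T
      exact ((Finset.erase_subset _ _).trans (Finset.erase_subset _ _)).trans hGI
    linarith
  -- the bound for the logarithm of `R`
  obtain ⟨Lg, hLg⟩ : ∃ Lg : ℝ, Lg = 3 * Ff_CB m * Q ^ (e₀ + 1) := ⟨_, rfl⟩
  have hCB0 : 0 < Ff_CB m := by linarith
  have hQp : 1 ≤ Q ^ e₀ := one_le_pow₀ hQ1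
  have hLgB : Ff_CB m * Q ≤ Lg := by
    rw [hLg, pow_succ]
    have e1 : 0 ≤ Ff_CB m * Q := by positivity
    have e2 := mul_le_mul_of_nonneg_left hQp e1
    nlinarith
  have hLg1 : 1 ≤ Lg := by
    refine le_trans ?_ hLgB
    nlinarith
  have hWL : (2 * M0 + 1 : ℝ) ≤ Lg * G.card := by
    have e1 : (2 * M0 + 1 : ℝ) ≤ 3 * (Q ^ e₀ * G.card) := by linarith
    refine e1.trans ?_
    rw [hLg, pow_succ]
    have e2 : 0 ≤ 3 * (Q ^ e₀ * (G.card : ℝ)) := by positivity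
    have e3 : 1 ≤ Ff_CB m * Q := by nlinarith
    have e4 := mul_le_mul_of_nonneg_left e3 e2
    linarith
  have hXL : Real.log R ≤ C9 * Lg ^ 2 := by
    refine hF9 G.card (2 * M0 + 1) Lg (Real.log R) (∑ p ∈ R.primeFactors, Real.log p / p) hLg1
      (by positivity) hWL hg4 hX0 hE0 (R8 hR) ?_
    have e1 : (G.card - 2 : ℝ) * (m * Real.log (2 * M0) + 2 * Real.log J) ≤ (G.card - 2) * Lg :=
      mul_le_mul_of_nonneg_left (hB.trans hLgB) (by linarith)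
    linarith
  have hXQ : Real.log R ≤ Q ^ e₁ := by
    refine hXL.trans ?_
    have e1 : C9 * Lg ^ 2 = K1 * Q ^ (2 * e₀ + 2) := by
      rw [hLg, hK1]
      ring
    rw [e1, he₁, show 2 * e₀ + 3 = (2 * e₀ + 2) + 1 by ring, pow_succ, mul_comm]
    exact mul_le_mul_of_nonneg_left hQK (by positivity)
  -- `z` and `Y`
  obtain ⟨z, hz⟩ : ∃ z : ℕ, z = ⌈Q ^ e₂⌉₊ := ⟨_, rfl⟩
  have hQe : 1 ≤ Q ^ e₂ := one_le_pow₀ hQ1
  have hz1 : Q ^ e₂ ≤ z := by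
    rw [hz]
    exact Nat.le_ceil _
  have hz2 : (z : ℝ) ≤ 2 * Q ^ e₂ := by
    rw [hz]
    have := Nat.ceil_lt_add_one (show 0 ≤ Q ^ e₂ by positivity)
    linarith
  have hz3 : 2 ≤ z := by
    have h1 : (2 : ℝ) ≤ z := by
      refine le_trans ?_ hz1
      have : Q ^ 1 ≤ Q ^ e₂ := pow_le_pow_right₀ hQ1 (by omega)
      rw [pow_one] at this
      linarith
    exact_mod_cast h1
  obtain ⟨Y, hY⟩ : ∃ Y : ℝ, Y = Real.exp (CY * (1 + Real.log Q) ^ 2) := ⟨_, rfl⟩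
  have hY1 : 1 < Y := by
    rw [hY, Real.one_lt_exp_iff]
    positivity
  have hmom := moment hm (fewCl_hh hD.prim hD.deg) hR hdiv hz3 hY1 M0
  have hcnt := Ff_count m e₀ e₁ e₂ hm he₂ CY hCY Q (Real.log R) G.card M0 z hQ72 hXQ hM01 hMG hz1 hz2
    hg24 hg6
  rw [← hY] at hcnt
  have hbad0 := hmom.trans hcnt
  -- the good elements
  have hbad : ((G.filter fun T => ¬ (hh P' T : ℝ) < Y).card : ℝ) ≤ G.card / 2 := by
    refine le_trans ?_ hbad0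
    have : (G.filter fun T => ¬ (hh P' T : ℝ) < Y) ⊆
        (Finset.Icc (-(M0 : ℤ)) M0).filter fun T => Y ≤ (hh P' T : ℝ) := by
      intro T hT
      rw [Finset.mem_filter] at hT ⊢
      exact ⟨hGI hT.1, not_lt.1 hT.2⟩
    exact_mod_cast Finset.card_le_card this
  have hsplit := Finset.card_filter_add_card_filter_not (s := G) (fun T => (hh P' T : ℝ) < Y)
  obtain ⟨G', hG'⟩ : ∃ G', G' = G.filter fun T => (hh P' T : ℝ) < Y := ⟨_, rfl⟩
  rw [← hG'] at hsplit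
  have hG'card : (G.card : ℝ) / 2 ≤ G'.card := by
    have : (G'.card : ℝ) + (G.filter fun T => ¬ (hh P' T : ℝ) < Y).card = G.card := by
      exact_mod_cast hsplit
    linarith
  have hG'2 : 2 * m + 2 ≤ G'.card := by
    have : (2 * m + 2 : ℝ) ≤ G'.card := by linarith
    exact_mod_cast this
  intro f
  have hJ1f : 0 ≤ J1 M f := by
    unfold J1
    have := hPf f
    have e1 : 0 ≤ ∏ i, M i := by
      rw [← hS]
      linarith
    positivity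
  have hval : ∀ T ∈ G', |(((P' f).eval T : ℤ) : ℝ)| ≤ Y * J1 M f := by
    intro T hT
    rw [hG', Finset.mem_filter] at hT
    exact (hD.val T hT.1 f).trans (mul_le_mul_of_nonneg_right hT.2.le hJ1f)
  have hs1 : 1 ≤ (G'.card - 1) / m := by
    rw [Nat.one_le_div_iff (by omega)]
    omega
  have hs2 : m * ((G'.card - 1) / m) + 1 ≤ G'.card := by
    have := Nat.mul_div_le (G'.card - 1) m
    omega
  have hs3 : G'.card ≤ m * ((G'.card - 1) / m) + m := by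
    have := Nat.lt_mul_div_succ (G'.card - 1) (show 0 < m by omega)
    rw [mul_add, mul_one] at this
    omega
  have hR10 := R10 m (P' f) (hD.deg f) G' _ _ hs1 hs2 hval
  rw [hY] at hR10
  unfold J1 at hR10
  rw [← hS] at hR10
  refine Ff_last m e₀ hm C0 CY Q hQ1 ?_ S (∏ k, M (f k)) _ (((G'.card - 1) / m : ℕ) : ℝ) M0
    (by linarith) (hPf f) (by linarith) (abs_nonneg _) ?_ hR10
  · rw [← hK3]
    linarith
  have e1 : (G'.card : ℝ) ≤ m * (((G'.card - 1) / m : ℕ) : ℝ) + m := by exact_mod_cast hs3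
  have e2 : (2 * m + 2 : ℝ) ≤ G'.card := by exact_mod_cast hG'2
  have e3 : (M0 : ℝ) ≤ Q ^ e₀ * (4 * m * (((G'.card - 1) / m : ℕ) : ℝ)) := by
    refine hMG.trans (mul_le_mul_of_nonneg_left ?_ (by positivity))
    nlinarith
  rw [div_le_iff₀ (by positivity)]
  linarith

end Pool.Agent.SD
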