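import Pool.Agent.Lib.MP_6f2296_co.Mg.G008
import Pool.Agent.Lib.MP_6f2296_co.SD.LLDefs

/-!
# Sets of large additive energy with few distances: the form with `n / √log n` distances
-/

set_option autoImplicit false

open scoped ComplexConjugate Pointwise
open Finset

namespace Pool.Agent.SD

/-- Large energy or small doubling. -/
theorem energy_or {K : ℝ} {A : Finset ℂ}
    (h : (A.card : ℝ) ^ 3 ≤ K * (Finset.addEnergy A A : ℕ) ∨ ((A + A).card : ℝ) ≤ K * A.card) :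
    (A.card : ℝ) ^ 3 ≤ K * (Finset.addEnergy A A : ℕ) := by
  rcases h with h | h
  · exact h
  · exact energy_of_doubling h

/-- The hypothesis of the main theorems holds for sets with `O(n / √log n)` distances. -/
theorem few_imp {K' c : ℝ} (hc : 0 < c) : ∃ y₀ : ℝ, 2 ≤ y₀ ∧ ∀ A : Finset ℂ, y₀ ≤ Real.log A.card →
    (RL.numDist A : ℝ) ≤ K' * A.card / Real.sqrt (Real.log A.card) →
    3 ≤ A.card ∧ (RL.numDist A : ℝ) * (1 + Real.log (Real.log A.card)) ≤ c * A.card := by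
  obtain ⟨y₀, hy₀, hy⟩ := log_small (c / (|K'| + 1)) (by positivity)
  refine ⟨max 2 y₀, le_max_left _ _, ?_⟩
  intro A hA hD
  have h2 : 2 ≤ Real.log A.card := (le_max_left _ _).trans hA
  have h3 : y₀ ≤ Real.log A.card := (le_max_right _ _).trans hA
  have hn0 : (0 : ℝ) ≤ A.card := Nat.cast_nonneg _
  have hn3 : 3 ≤ A.card := by
    by_contra h
    have h4 : (A.card : ℝ) ≤ 2 := by exact_mod_cast (by omega : A.card ≤ 2)
    rcases hn0.eq_or_lt with h5 | h5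
    · rw [← h5, Real.log_zero] at h2
      linarith
    · have h6 := Real.log_le_sub_one_of_pos h5
      linarith
  refine ⟨hn3, ?_⟩
  have hs : 0 < Real.sqrt (Real.log A.card) := Real.sqrt_pos.2 (by linarith)
  have hu : 0 ≤ 1 + Real.log (Real.log A.card) := by
    have := (Mn_u hn3).2.1
    linarith
  have h4 := hy _ h3
  have hK : K' ≤ |K'| + 1 := by linarith [le_abs_self K']
  calc (RL.numDist A : ℝ) * (1 + Real.log (Real.log A.card))
      ≤ K' * A.card / Real.sqrt (Real.log A.card) * (1 + Real.log (Real.log A.card)) :=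
        mul_le_mul_of_nonneg_right hD hu
    _ ≤ (|K'| + 1) * A.card / Real.sqrt (Real.log A.card) * (1 + Real.log (Real.log A.card)) := by
        gcongr
    _ ≤ (|K'| + 1) * A.card / Real.sqrt (Real.log A.card) *
        (c / (|K'| + 1) * Real.sqrt (Real.log A.card)) := by
        apply mul_le_mul_of_nonneg_left h4
        positivity
    _ = c * A.card := by
        have : (0 : ℝ) < |K'| + 1 := by positivity
        field_simp

/-- Rich lines, final form. -/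
theorem LEfin (K : ℝ) : ∃ c C : ℝ, 0 < c ∧ 0 < C ∧ ∀ A : Finset ℂ, 3 ≤ A.card →
    ((A.card : ℝ) ^ 3 ≤ K * (Finset.addEnergy A A : ℕ) ∨ ((A + A).card : ℝ) ≤ K * A.card) →
    (RL.numDist A : ℝ) ≤ c * A.card / (1 + Real.log (Real.log A.card)) →
    ∃ w : ℂ, w ≠ 0 ∧ c * (A.card : ℝ) ≤ ((richPts A w ((A.card : ℝ) ^ (1 / 2 : ℝ) *
      Real.exp (-(C * (1 + Real.log (Real.log A.card)) ^ 2)))).card : ℝ) := by
  obtain ⟨c, c', C, hc, hc', hC, H⟩ := LE K
  refine ⟨min c c', C, lt_min hc hc', by linarith, ?_⟩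
  intro A hn3 hE hD
  obtain ⟨-, hu, -⟩ := Mn_u hn3
  have hn0 : (0 : ℝ) ≤ A.card := Nat.cast_nonneg _
  rw [le_div_iff₀ (by linarith)] at hD
  obtain ⟨w, hw, h⟩ := H A hn3 (energy_or hE)
    (hD.trans (mul_le_mul_of_nonneg_right (min_le_left _ _) hn0))
  refine ⟨w, hw, (mul_le_mul_of_nonneg_right (min_le_right _ _) hn0).trans ?_⟩
  rw [← Real.sqrt_eq_rpow]
  exact h

/-- The threshold `c n ^ ε`. -/
private theorem few_T (C₀ ε : ℝ) (hC₀ : 1 ≤ C₀) (hε : ε < 1 / 2) : ∃ y₂ : ℝ, 1 ≤ y₂ ∧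
    ∀ n : ℕ, 3 ≤ n → y₂ ≤ Real.log n →
      (n : ℝ) ^ ε ≤ Real.sqrt n * Real.exp (-(C₀ * (1 + Real.log (Real.log n)) ^ 2)) := by
  obtain ⟨y₂, hy₂, H₂⟩ := log_small (Real.sqrt ((1 / 2 - ε) / C₀))
    (Real.sqrt_pos.2 (div_pos (by linarith) (by linarith)))
  refine ⟨y₂, hy₂, ?_⟩
  intro n hn3 hlog
  have hn0 : (0 : ℝ) < n := by exact_mod_cast (by omega : 0 < n)
  have h2 := H₂ _ hlog
  obtain ⟨hl, hu, -⟩ := Mn_u hn3
  have h3 : (1 + Real.log (Real.log n)) ^ 2 ≤ (1 / 2 - ε) / C₀ * Real.log n := by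
    have h4 := pow_le_pow_left₀ (by linarith) h2 2
    rw [mul_pow, Real.sq_sqrt (div_nonneg (by linarith) (by linarith)), Real.sq_sqrt (by linarith)] at h4
    exact h4
  have h4 : Real.exp (C₀ * (1 + Real.log (Real.log n)) ^ 2) ≤ (n : ℝ) ^ (1 / 2 - ε) := by
    rw [Real.rpow_def_of_pos hn0]
    apply Real.exp_le_exp.2
    calc C₀ * (1 + Real.log (Real.log n)) ^ 2 ≤ C₀ * ((1 / 2 - ε) / C₀ * Real.log n) :=
          mul_le_mul_of_nonneg_left h3 (by linarith)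
      _ = Real.log n * (1 / 2 - ε) := by
          have : C₀ ≠ 0 := by linarith
          field_simp
  rw [Real.exp_neg, ← div_eq_mul_inv, le_div_iff₀ (Real.exp_pos _)]
  calc (n : ℝ) ^ ε * Real.exp (C₀ * (1 + Real.log (Real.log n)) ^ 2)
      ≤ (n : ℝ) ^ ε * (n : ℝ) ^ (1 / 2 - ε) :=
        mul_le_mul_of_nonneg_left h4 (Real.rpow_nonneg hn0.le _)
    _ = Real.sqrt n := by
        rw [← Real.rpow_add hn0, show ε + (1 / 2 - ε) = 1 / 2 by ring, ← Real.sqrt_eq_rpow]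

/-- The case of a bounded number of points. -/
private theorem few_small {ε y : ℝ} (hε : ε < 1 / 2) {n : ℕ} (hn : 1 ≤ n) (hlog : Real.log n < y) :
    Real.exp (-y) * (n : ℝ) ^ ε ≤ 1 := by
  have hn0 : (0 : ℝ) < n := by exact_mod_cast (by omega : 0 < n)
  have hn1 : (1 : ℝ) ≤ n := by exact_mod_cast hn
  have h2 : (n : ℝ) ^ ε ≤ Real.exp y := by
    calc (n : ℝ) ^ ε ≤ (n : ℝ) ^ (1 : ℝ) := Real.rpow_le_rpow_of_exponent_le hn1 (by linarith)
      _ = n := Real.rpow_one _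
      _ ≤ Real.exp y := by
          rw [← Real.log_le_iff_le_exp hn0]
          exact hlog.le
  calc Real.exp (-y) * (n : ℝ) ^ ε ≤ Real.exp (-y) * Real.exp y :=
        mul_le_mul_of_nonneg_left h2 (Real.exp_pos _).le
    _ = 1 := by rw [← Real.exp_add]; simp

theorem LEfew (K K' ε : ℝ) (hε : ε < 1 / 2) : ∃ c : ℝ, 0 < c ∧ ∀ A : Finset ℂ, 2 ≤ A.card →
    ((A.card : ℝ) ^ 3 ≤ K * (Finset.addEnergy A A : ℕ) ∨ ((A + A).card : ℝ) ≤ K * A.card) →
    (RL.numDist A : ℝ) ≤ K' * A.card / Real.sqrt (Real.log A.card) →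
    ∃ w : ℂ, w ≠ 0 ∧ c * (A.card : ℝ) ≤ ((richPts A w (c * (A.card : ℝ) ^ ε)).card : ℝ) := by
  classical
  obtain ⟨c₀, c₃, C₀, hc₀, hc₃, hC₀, H⟩ := LE K
  obtain ⟨y₁, hy₁, H₁⟩ := few_imp (K' := K') hc₀
  obtain ⟨y₂, hy₂, H₂⟩ := few_T C₀ ε hC₀ hε
  obtain ⟨y, hy⟩ : ∃ y, y = max y₁ y₂ := ⟨_, rfl⟩
  have hy0 : 0 ≤ y := by
    have : y₁ ≤ y := by rw [hy]; exact le_max_left _ _
    linarith
  have hexp1 : Real.exp (-y) ≤ 1 := by
    rw [Real.exp_le_one_iff]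
    linarith
  refine ⟨min c₃ (Real.exp (-y)), lt_min hc₃ (Real.exp_pos _), ?_⟩
  intro A hn2 hE hD
  have hn0 : (0 : ℝ) < A.card := by exact_mod_cast (by omega : 0 < A.card)
  have hr0 : 0 ≤ (A.card : ℝ) ^ ε := Real.rpow_nonneg hn0.le _
  by_cases hlog : y ≤ Real.log A.card
  · obtain ⟨hn3, hD'⟩ := H₁ A ((le_max_left _ _).trans (hy ▸ hlog)) hD
    obtain ⟨w, hw, h⟩ := H A hn3 (energy_or hE) hD'
    refine ⟨w, hw, (mul_le_mul_of_nonneg_right (min_le_left _ _) hn0.le).trans (h.trans ?_)⟩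
    have h5 := card_le_card (richPts_mono (Finset.Subset.refl A) w
      (S := min c₃ (Real.exp (-y)) * (A.card : ℝ) ^ ε) (T := Real.sqrt A.card *
        Real.exp (-(C₀ * (1 + Real.log (Real.log A.card)) ^ 2))) (by
        refine le_trans ?_ (H₂ A.card hn3 ((le_max_right _ _).trans (hy ▸ hlog)))
        exact mul_le_of_le_one_left hr0 ((min_le_right _ _).trans hexp1)))
    exact_mod_cast h5
  · rw [not_le] at hlog
    refine ⟨1, one_ne_zero, ?_⟩
    rw [richPts_one A 1 (le_trans (mul_le_mul_of_nonneg_right (min_le_right _ _) hr0)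
      (few_small hε (by omega) hlog))]
    exact mul_le_of_le_one_left hn0.le ((min_le_right _ _).trans hexp1)

open Classical in
theorem mem_richAny {A : Finset ℂ} {T : ℝ} {a : ℂ} :
    a ∈ richAny A T ↔ a ∈ A ∧ ∃ w : ℂ, w ≠ 0 ∧ T ≤ ((RL.onLine A a w).card : ℝ) := by
  unfold richAny
  rw [mem_filter]

/-- If the poor points are few then the rich points are many. -/
private theorem rich_of_poor {A : Finset ℂ} {T η : ℝ}
    (H : ∀ P ⊆ A, (∀ a ∈ P, ∀ w : ℂ, w ≠ 0 → ((RL.onLine A a w).card : ℝ) < T) →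
      (P.card : ℝ) ≤ η * A.card) : (1 - η) * (A.card : ℝ) ≤ ((richAny A T).card : ℝ) := by
  classical
  have h1 := H (A.filter fun a => ¬ ∃ w : ℂ, w ≠ 0 ∧ T ≤ ((RL.onLine A a w).card : ℝ))
    (filter_subset _ _) (by
      intro a ha w hw
      rw [mem_filter] at ha
      by_contra h
      exact ha.2 ⟨w, hw, not_lt.1 h⟩)
  have h2 := card_filter_add_card_filter_not (s := A)
    (fun a => ∃ w : ℂ, w ≠ 0 ∧ T ≤ ((RL.onLine A a w).card : ℝ))
  have h3 : (A.filter fun a => ∃ w : ℂ, w ≠ 0 ∧ T ≤ ((RL.onLine A a w).card : ℝ)) = richAny A T := by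
    ext a
    rw [mem_filter, mem_richAny]
  rw [h3] at h2
  have h4 : ((richAny A T).card : ℝ) + ((A.filter fun a => ¬ ∃ w : ℂ, w ≠ 0 ∧
      T ≤ ((RL.onLine A a w).card : ℝ)).card : ℝ) = A.card := by exact_mod_cast h2
  linarith

/-- Almost all points are on rich lines, final form. -/
theorem AARfin (K η : ℝ) (hη : 0 < η) : ∃ c C : ℝ, 0 < c ∧ 0 < C ∧ ∀ A : Finset ℂ, 3 ≤ A.card →
    ((A + A).card : ℝ) ≤ K * A.card →
    (RL.numDist A : ℝ) ≤ c * A.card / (1 + Real.log (Real.log A.card)) →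
    (1 - η) * (A.card : ℝ) ≤ ((richAny A ((A.card : ℝ) ^ (1 / 2 : ℝ) *
      Real.exp (-(C * (1 + Real.log (Real.log A.card)) ^ 2)))).card : ℝ) := by
  obtain ⟨c, C, hc, hC, H⟩ := AAR K η hη
  refine ⟨c, C, hc, by linarith, ?_⟩
  intro A hn3 hE hD
  obtain ⟨-, hu, -⟩ := Mn_u hn3
  rw [le_div_iff₀ (by linarith)] at hD
  apply rich_of_poor
  rw [← Real.sqrt_eq_rpow]
  exact H A hn3 hE hD

theorem AARfew (K η K' ε : ℝ) (hη : 0 < η) (hε : ε < 1 / 2) : ∃ c : ℝ, 0 < c ∧ ∀ A : Finset ℂ,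
    2 ≤ A.card → ((A + A).card : ℝ) ≤ K * A.card →
    (RL.numDist A : ℝ) ≤ K' * A.card / Real.sqrt (Real.log A.card) →
    (1 - η) * (A.card : ℝ) ≤ ((richAny A (c * (A.card : ℝ) ^ ε)).card : ℝ) := by
  classical
  obtain ⟨c₀, C₀, hc₀, hC₀, H⟩ := AAR K η hη
  obtain ⟨y₁, hy₁, H₁⟩ := few_imp (K' := K') hc₀
  obtain ⟨y₂, hy₂, H₂⟩ := few_T C₀ ε hC₀ hε
  obtain ⟨y, hy⟩ : ∃ y, y = max y₁ y₂ := ⟨_, rfl⟩
  have hexp1 : Real.exp (-y) ≤ 1 := by
    rw [Real.exp_le_one_iff]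
    have : y₁ ≤ y := by rw [hy]; exact le_max_left _ _
    linarith
  refine ⟨Real.exp (-y), Real.exp_pos _, ?_⟩
  intro A hn2 hE hD
  have hn0 : (0 : ℝ) < A.card := by exact_mod_cast (by omega : 0 < A.card)
  have hr0 : 0 ≤ (A.card : ℝ) ^ ε := Real.rpow_nonneg hn0.le _
  apply rich_of_poor
  intro P hP hpoor
  by_cases hlog : y ≤ Real.log A.card
  · obtain ⟨hn3, hD'⟩ := H₁ A ((le_max_left _ _).trans (hy ▸ hlog)) hD
    refine H A hn3 hE hD' P hP fun a ha w hw => (hpoor a ha w hw).trans_le ?_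
    refine le_trans ?_ (H₂ A.card hn3 ((le_max_right _ _).trans (hy ▸ hlog)))
    exact mul_le_of_le_one_left hr0 hexp1
  · rw [not_le] at hlog
    have h1 : P = ∅ := by
      rw [eq_empty_iff_forall_notMem]
      intro a ha
      have h2 := hpoor a ha 1 one_ne_zero
      have h3 : 0 < (RL.onLine A a 1).card := card_pos.2 ⟨a, self_mem_onLine (hP ha) 1⟩
      have h4 : (1 : ℝ) ≤ ((RL.onLine A a 1).card : ℝ) := by exact_mod_cast h3
      have h5 := few_small hε (by omega : 1 ≤ A.card) hlog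
      linarith
    rw [h1, card_empty, Nat.cast_zero]
    positivity

theorem LSall (K : ℝ) : ∃ (D F : ℕ) (c : ℝ), 0 < c ∧
    (∀ A : Finset ℂ, 3 ≤ A.card →
      ((A.card : ℝ) ^ 3 ≤ K * (Finset.addEnergy A A : ℕ) ∨ ((A + A).card : ℝ) ≤ K * A.card) →
      (RL.numDist A : ℝ) ≤ c * A.card / (1 + Real.log (Real.log A.card)) → LatticeLike D F c A) ∧
    ∀ K' : ℝ, ∃ n₀ : ℕ, ∀ A : Finset ℂ, n₀ ≤ A.card →
      ((A.card : ℝ) ^ 3 ≤ K * (Finset.addEnergy A A : ℕ) ∨ ((A + A).card : ℝ) ≤ K * A.card) →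
      (RL.numDist A : ℝ) ≤ K' * A.card / Real.sqrt (Real.log A.card) → LatticeLike D F c A := by
  obtain ⟨D, F, c, hc, H⟩ := LSfin K
  refine ⟨D, F, c, hc, ?_, ?_⟩
  · intro A hn3 hE hD
    obtain ⟨-, hu, -⟩ := Mn_u hn3
    rw [le_div_iff₀ (by linarith)] at hD
    exact H A hn3 (energy_or hE) hD
  · intro K'
    obtain ⟨y₁, hy₁, H₁⟩ := few_imp (K' := K') hc
    refine ⟨⌈Real.exp y₁⌉₊, ?_⟩
    intro A hn hE hD
    have hn0 : Real.exp y₁ ≤ A.card := (Nat.le_ceil _).trans (by exact_mod_cast hn)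
    obtain ⟨hn3, hD'⟩ := H₁ A (by
      rw [Real.le_log_iff_exp_le ((Real.exp_pos _).trans_le hn0)]
      exact hn0) hD
    exact H A hn3 (energy_or hE) hD'

end Pool.Agent.SD
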